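import Pool.Agent.Helper96.FG.Defs

open MeasureTheory ProbabilityTheory Set Filter
open scoped ENNReal Topology

namespace Pool.Agent.Helper96.Frog

section gen
variable {d : ℕ} {p : Fin 2 → ℝ} {tie : ℕ → Site d → Fin 2} {z : Site d} {ω : Config d}

lemma twoType_mono {n : ℕ} {y : Site d} {s : ℕ × Fin 2} (h : twoType p tie z ω n y = some s) :
    twoType p tie z ω (n + 1) y = some s := by
  simp only [twoType, h]

lemma twoType_mono_le {n m : ℕ} (hnm : n ≤ m) {y : Site d} {s : ℕ × Fin 2}
    (h : twoType p tie z ω n y = some s) : twoType p tie z ω m y = some s := by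
  induction m, hnm using Nat.le_induction with
  | base => exact h
  | succ m _ ih => exact twoType_mono ih

lemma twoType_new {n : ℕ} {y : Site d} {t : ℕ} {j : Fin 2}
    (h : twoType p tie z ω (n + 1) y = some (t, j)) (hn : twoType p tie z ω n y = none) :
    t = n + 1 ∧ Arrives p ω (twoType p tie z ω n) (n + 1) j y := by
  simp only [twoType, hn] at h
  split_ifs at h with h1 h2 h3
  · simp only [Option.some.injEq, Prod.mk.injEq] at h
    obtain ⟨rfl, rfl⟩ := h
    refine ⟨rfl, ?_⟩
    have h3 : ∀ j : Fin 2, Arrives p ω (twoType p tie z ω n) (n + 1) j y := by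
      intro j
      rcases fin2_cases j with rfl | rfl
      · exact h1
      · exact h2
    exact h3 _
  · simp only [Option.some.injEq, Prod.mk.injEq] at h
    obtain ⟨rfl, rfl⟩ := h
    exact ⟨rfl, h1⟩
  · simp only [Option.some.injEq, Prod.mk.injEq] at h
    obtain ⟨rfl, rfl⟩ := h
    exact ⟨rfl, h3⟩

lemma twoType_time {n : ℕ} {y : Site d} {t : ℕ} {j : Fin 2}
    (h : twoType p tie z ω n y = some (t, j)) : twoType p tie z ω t y = some (t, j) := by
  induction n with
  | zero =>
    have h1 := (twoType_bound (0 : Site d →+ ℤ) (by simp) 0 y t j h).1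
    have h2 : t = 0 := by omega
    subst h2
    exact h
  | succ n ih =>
    by_cases hn : twoType p tie z ω n y = none
    · obtain ⟨h1, -⟩ := twoType_new h hn
      subst h1
      exact h
    · obtain ⟨s, hs⟩ := Option.ne_none_iff_exists'.1 hn
      have h1 := twoType_mono hs
      rw [h] at h1
      simp only [Option.some.injEq] at h1
      subst h1
      exact ih hs

lemma twoType_of_arrives {n : ℕ} {y : Site d} {j : Fin 2}
    (h : Arrives p ω (twoType p tie z ω n) (n + 1) j y) :
    twoType p tie z ω (n + 1) y ≠ none := by
  simp only [twoType]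
  split
  · simp
  · rcases fin2_cases j with rfl | rfl
    · rw [if_pos h]
      split_ifs <;> simp
    · rw [if_pos h]
      split_ifs <;> simp

end gen

/-- The oriented coordinate as a homomorphism. -/
def levH (j : Fin 2) : Site 1 →+ ℤ :=
  if j = 1 then Pi.evalAddMonoidHom (fun _ => ℤ) 0 else -Pi.evalAddMonoidHom (fun _ => ℤ) 0

lemma levH_apply (j : Fin 2) (y : Site 1) : levH j y = lev j y := by
  rcases fin2_cases j with rfl | rfl <;> simp [levH, lev]

lemma lev_add (j : Fin 2) (x y : Site 1) : lev j (x + y) = lev j x + lev j y := by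
  rw [← levH_apply, ← levH_apply, ← levH_apply, map_add]

lemma lev_dirOf (j : Fin 2) : lev j (vec (dirOf j)) = 1 := by
  rcases fin2_cases j with rfl | rfl <;> simp [lev, vec, dirOf]

lemma lev_zsmul (j : Fin 2) (n : ℤ) (x : Site 1) : lev j (n • x) = n * lev j x := by
  rw [← levH_apply, ← levH_apply, map_zsmul, smul_eq_mul]

lemma lev_front (Z : ℕ) (j : Fin 2) (n : ℕ) : lev j (front Z j n) = lev j (start (zz Z) j) + n := by
  rw [front, lev_add, lev_zsmul, lev_dirOf, mul_one]

lemma front_succ (Z : ℕ) (j : Fin 2) (n : ℕ) :
    front Z j (n + 1) = front Z j n + vec (dirOf j) := by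
  unfold front
  push_cast
  module

lemma front_zero (Z : ℕ) (j : Fin 2) : front Z j 0 = start (zz Z) j := by
  simp [front]

lemma eq_of_lev {j : Fin 2} {x y : Site 1} (h : lev j x = lev j y) : x = y := by
  funext i
  have hi : i = 0 := Subsingleton.elim _ _
  subst hi
  rcases fin2_cases j with rfl | rfl
  · simp only [lev, zero_ne_one, if_false] at h
    linarith
  · simpa [lev] using h

lemma lev_start_lt {Z : ℕ} (hZ : 1 ≤ Z) {j j' : Fin 2} (hjj : j' ≠ j) :
    lev j (start (zz Z) j') < lev j (start (zz Z) j) := by
  have hZ' : (1 : ℤ) ≤ Z := by exact_mod_cast hZ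
  rcases fin2_cases j with rfl | rfl
  · have : j' = 1 := (fin2_cases j').resolve_left hjj
    subst this
    simp only [lev, start, zz, zero_ne_one, one_ne_zero, if_false, if_true, Pi.zero_apply]
    linarith
  · have : j' = 0 := (fin2_cases j').resolve_right hjj
    subst this
    simp only [lev, start, zz, one_ne_zero, if_false, if_true, Pi.zero_apply]
    linarith

lemma vec_le_one_one (e : Dir 1) : vec e 0 ≤ 1 ∧ -1 ≤ vec e 0 := by
  simp only [vec]
  split_ifs <;> norm_num

lemma natAbs_le_time {p : Fin 2 → ℝ} {tie : ℕ → Site 1 → Fin 2} {z : Site 1} {ω : Config 1} {n : ℕ}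
    {y : Site 1} {t : ℕ} {j : Fin 2} (h : twoType p tie z ω n y = some (t, j)) :
    (y 0 - start z j 0).natAbs ≤ t := by
  have h1 := (twoType_bound (Pi.evalAddMonoidHom (fun _ => ℤ) 0)
    (fun e => (vec_le_one_one e).1) n y t j h).2
  have h2 := (twoType_bound (-Pi.evalAddMonoidHom (fun _ => ℤ) 0)
    (fun e => by
      show - (vec e 0) ≤ 1
      have := (vec_le_one_one e).2
      linarith) n y t j h).2
  have h3 : y 0 ≤ start z j 0 + t := h1
  have h4 : - y 0 ≤ - start z j 0 + t := h2
  omega

/-- If the front of type `j` never fails and no particle of the other type crosses it, then type `j`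
activates infinitely many particles. -/
theorem activates_of_front {p : Fin 2 → ℝ} {tie : ℕ → Site 1 → Fin 2} {Z : ℕ} (hZ : 1 ≤ Z)
    {ω : Config 1} {b : ℕ → ℕ} {j j' : Fin 2} (hjj : j' ≠ j) (h1 : ω ∉ FrontFail (p j) b Z j)
    (h2 : ω ∉ Cross (p j') b Z j j') : ActivatesInfinitely p tie (zz Z) j ω := by
  -- unfold the two hypotheses
  have h1' : ∀ n, ∃ i < (ω (front Z j n)).1, ∃ s ≤ b n,
      traj (p j) (front Z j n) ((ω (front Z j n)).2 i) s = front Z j (n + 1) := by
    intro n
    simp only [FrontFail, mem_ofPred_eq, not_exists, not_forall] at h1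
    obtain ⟨i, hi, hi2⟩ := h1 n
    simp only [NoHit, mem_ofPred_eq, not_forall, not_not] at hi2
    obtain ⟨s, hs, hs2⟩ := hi2
    exact ⟨i, hi, s, hs, by rw [front_succ]; exact hs2⟩
  have h2' : ∀ x : Site 1, lev j x < lev j (start (zz Z) j) → ∀ i < (ω x).1, ∀ s m : ℕ,
      lev j (start (zz Z) j) + m ≤ lev j (traj (p j') x ((ω x).2 i) s) →
      Bsum b m < (x 0 - start (zz Z) j' 0).natAbs + s := by
    intro x hx i hi s m hm
    by_contra hcon
    exact h2 ⟨x, hx, i, hi, s, m, hm, not_lt.1 hcon⟩
  have hother : ∀ j'' : Fin 2, j'' ≠ j → j'' = j' := by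
    intro j'' hj
    rcases fin2_cases j with rfl | rfl
    · rw [(fin2_cases j').resolve_left hjj, (fin2_cases j'').resolve_left hj]
    · rw [(fin2_cases j').resolve_right hjj, (fin2_cases j'').resolve_right hj]
  -- the front sites are discovered in time as long as the half line has type `j`
  have hQ : ∀ n, (∀ n' ≤ n, ∀ y t j'', lev j (start (zz Z) j) ≤ lev j y →
      twoType p tie (zz Z) ω n' y = some (t, j'') → j'' = j) →
      ∀ m, Bsum b m ≤ n → twoType p tie (zz Z) ω (Bsum b m) (front Z j m) ≠ none := by
    intro n hP m
    induction m with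
    | zero =>
      intro _
      have h0 : Bsum b 0 = 0 := by simp [Bsum]
      rw [h0, front_zero]
      simp only [twoType]
      rcases fin2_cases j with rfl | rfl
      · simp [start]
      · simp only [start, one_ne_zero, if_false]
        split_ifs <;> simp
    | succ m ih =>
      intro hm
      have hBs : Bsum b (m + 1) = Bsum b m + b m := by
        unfold Bsum
        rw [Finset.sum_range_succ]
      have hm' : Bsum b m ≤ n := by omega
      obtain ⟨⟨t, j''⟩, ht⟩ := Option.ne_none_iff_exists'.1 (ih hm')
      have hj : j'' = j := by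
        refine hP _ hm' _ _ _ ?_ ht
        rw [lev_front]
        omega
      subst hj
      have ht1 := (twoType_bound (0 : Site 1 →+ ℤ) (by simp) _ _ _ _ ht).1
      obtain ⟨i, hi, s, hs, hs2⟩ := h1' m
      have hs0 : s ≠ 0 := by
        rintro rfl
        have h3 := congrArg (lev j'') hs2
        rw [lev_front] at h3
        have h4 : traj (p j'') (front Z j'' m) ((ω (front Z j'' m)).2 i) 0 = front Z j'' m := by
          simp [traj, advances]
        rw [h4, lev_front] at h3
        push_cast at h3
        omega
      obtain ⟨s', rfl⟩ := Nat.exists_eq_succ_of_ne_zero hs0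
      have harr : Arrives p ω (twoType p tie (zz Z) ω (t + s')) (t + s' + 1) j''
          (front Z j'' (m + 1)) := by
        refine ⟨front Z j'' m, t, i, ?_, hi, ?_⟩
        · exact twoType_mono_le (by omega) (twoType_time ht)
        · rw [show t + s' + 1 - t = s' + 1 by omega]
          exact hs2
      obtain ⟨u, hu⟩ := Option.ne_none_iff_exists'.1 (twoType_of_arrives harr)
      have h5 : twoType p tie (zz Z) ω (Bsum b (m + 1)) (front Z j'' (m + 1)) = some u :=
        twoType_mono_le (by rw [hBs]; omega) hu
      rw [h5]
      simp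
  -- the half line has type `j`
  have hP : ∀ n, ∀ y t j'', lev j (start (zz Z) j) ≤ lev j y →
      twoType p tie (zz Z) ω n y = some (t, j'') → j'' = j := by
    intro n
    induction n using Nat.strong_induction_on with
    | _ n ih =>
      intro y t j'' hy hn
      by_contra hj
      have hj' := hother j'' hj
      cases n with
      | zero =>
        have h3 : y = start (zz Z) j'' := by
          simp only [twoType] at hn
          split_ifs at hn with h4 h5
          · simp only [Option.some.injEq, Prod.mk.injEq] at hn
            rw [h4, ← hn.2]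
            simp [start]
          · simp only [Option.some.injEq, Prod.mk.injEq] at hn
            rw [h5, ← hn.2]
            simp [start]
        have h4 := lev_start_lt hZ hj
        rw [h3] at hy
        omega
      | succ n =>
        by_cases hnone : twoType p tie (zz Z) ω n y = none
        · obtain ⟨-, x, t', i, hx, hi, htr⟩ := twoType_new hn hnone
          have hx1 : lev j x < lev j (start (zz Z) j) := by
            by_contra hcon
            exact hj (ih n (by omega) x t' j'' (not_lt.1 hcon) hx)
          obtain ⟨m, hm⟩ := Int.eq_ofNat_of_zero_le (sub_nonneg.2 hy)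
          have hm2 : lev j y = lev j (front Z j m) := by
            rw [lev_front]
            linarith
          have hym := eq_of_lev hm2
          have h3 := h2' x hx1 i hi (n + 1 - t') m (by
            rw [hj'] at htr
            rw [htr]
            linarith)
          have h4 := natAbs_le_time hx
          rw [hj'] at h4
          have h5 := (twoType_bound (0 : Site 1 →+ ℤ) (by simp) _ _ _ _ hx).1
          have h6 : Bsum b m ≤ n := by omega
          have h7 := hQ n (fun n' hn' => ih n' (by omega)) m h6
          obtain ⟨u, hu⟩ := Option.ne_none_iff_exists'.1 h7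
          have h8 := twoType_mono_le h6 hu
          rw [← hym, hnone] at h8
          simp at h8
        · obtain ⟨u, hu⟩ := Option.ne_none_iff_exists'.1 hnone
          have h3 := twoType_mono hu
          rw [hn] at h3
          simp only [Option.some.injEq] at h3
          subst h3
          exact hj (ih n (by omega) y t j'' hy hu)
  -- conclusion
  choose i hi hi' using h1'
  unfold ActivatesInfinitely
  refine Set.infinite_of_injective_forall_mem (f := fun k : ℕ => (front Z j k, i k)) ?_ ?_
  · intro k k' hkk
    simp only [Prod.mk.injEq] at hkk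
    have h3 := congrArg (lev j) hkk.1
    rw [lev_front, lev_front] at h3
    have : (k' : ℤ) = k := by linarith
    exact_mod_cast this.symm
  · intro k
    refine ⟨hi k, Bsum b k, ?_⟩
    obtain ⟨⟨t, j''⟩, ht⟩ := Option.ne_none_iff_exists'.1
      (hQ (Bsum b k) (fun n' _ => hP n') k le_rfl)
    have hj : j'' = j := by
      refine hP _ _ _ _ ?_ ht
      rw [lev_front]
      omega
    subst hj
    exact ⟨t, ht⟩

end Pool.Agent.Helper96.Frog
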