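import Pool.Agent.Helper96.FG.Defs

open MeasureTheory ProbabilityTheory Set Filter
open scoped ENNReal Topology

namespace Pool.Agent.Helper96.Frog

/-- The scale of the displacement within the first `Bsum b m` time steps. -/
def Dm (b : ℕ → ℕ) (m : ℕ) : ℕ := Nat.sqrt (Bsum b m) + 1

/-- The weight of the pair `(m, w)`. -/
noncomputable def wt (b : ℕ → ℕ) (q : ℕ × ℕ) : ℝ :=
  ((Bsum b q.1 : ℝ) + 1) * (2 * ((1 + 1 / (Dm b q.1 : ℝ))⁻¹) ^ (q.1 + q.2))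

lemma le_Bsum (J m : ℕ) : m ≤ Bsum (bq J) m := by
  unfold Bsum
  have h := Finset.card_nsmul_le_sum (Finset.range m) (bq J) 1 fun n _ => by unfold bq; omega
  simpa using h

lemma Bsum_sq_le (J : ℕ) {m : ℕ} (hm : 1 ≤ m) : Bsum (bq J) m ^ 2 ≤ 4 * (1 + J) * m ^ 3 := by
  have h1 : Bsum (bq J) m ≤ m * (Nat.sqrt (m + J) + 1) := by
    unfold Bsum
    refine (Finset.sum_le_card_nsmul (Finset.range m) (bq J) (Nat.sqrt (m + J) + 1)
      fun n hn => ?_).trans (le_of_eq (by simp))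
    unfold bq
    have h2 := Finset.mem_range.1 hn
    have h3 := Nat.sqrt_le_sqrt (show n + J ≤ m + J by omega)
    omega
  have hs1 : 1 ≤ Nat.sqrt (m + J) := Nat.sqrt_pos.2 (by omega)
  have hs2 := Nat.sqrt_le' (m + J)
  set s := Nat.sqrt (m + J)
  have h2 : (s + 1) ^ 2 ≤ 4 * (m + J) := by nlinarith
  have h3 : m + J ≤ m * (1 + J) := by nlinarith
  calc Bsum (bq J) m ^ 2 ≤ (m * (s + 1)) ^ 2 := Nat.pow_le_pow_left h1 2
    _ = m ^ 2 * (s + 1) ^ 2 := by ring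
    _ ≤ m ^ 2 * (4 * (m * (1 + J))) := Nat.mul_le_mul_left _ (h2.trans (by omega))
    _ = 4 * (1 + J) * m ^ 3 := by ring

lemma Dm_sq_le (J : ℕ) {m : ℕ} (hm : 1 ≤ m) : Dm (bq J) m ^ 2 ≤ 4 * Bsum (bq J) m := by
  unfold Dm
  have h0 := le_Bsum J m
  have hs1 : 1 ≤ Nat.sqrt (Bsum (bq J) m) := Nat.sqrt_pos.2 (by omega)
  have hs2 := Nat.sqrt_le' (Bsum (bq J) m)
  nlinarith

lemma wt_hasSum (b : ℕ → ℕ) (m : ℕ) : HasSum (fun w => wt b (m, w))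
    (((Bsum b m : ℝ) + 1) * (2 * (((1 + 1 / (Dm b m : ℝ))⁻¹) ^ m * ((Dm b m : ℝ) + 1)))) := by
  have hD : (0 : ℝ) < (Dm b m : ℝ) := by
    unfold Dm
    positivity
  set D : ℝ := (Dm b m : ℝ) with hDdef
  have hr : (1 + 1 / D)⁻¹ = D / (D + 1) := by
    field_simp
  have hr0 : 0 ≤ (1 + 1 / D)⁻¹ := by positivity
  have hr1 : (1 + 1 / D)⁻¹ < 1 := by
    rw [hr, div_lt_one (by positivity)]
    linarith
  have h1 := hasSum_geometric_of_lt_one hr0 hr1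
  have h2 : (1 - (1 + 1 / D)⁻¹)⁻¹ = D + 1 := by
    rw [hr]
    have : 1 - D / (D + 1) = 1 / (D + 1) := by
      field_simp
      ring
    rw [this, one_div, inv_inv]
  rw [h2] at h1
  have h3 := ((h1.mul_left (((1 + 1 / D)⁻¹) ^ m)).mul_left 2).mul_left ((Bsum b m : ℝ) + 1)
  refine h3.congr_fun ?_
  intro w
  rw [wt, pow_add]

/-- The weights are summable. -/
theorem wt_summable (J : ℕ) : Summable (wt (bq J)) := by
  have hnn : ∀ q, 0 ≤ wt (bq J) q := fun q => by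
    unfold wt
    positivity
  rw [summable_prod_of_nonneg hnn]
  refine ⟨fun m => (wt_hasSum _ m).summable, ?_⟩
  have e : (fun m => ∑' w, wt (bq J) (m, w)) = fun m => ((Bsum (bq J) m : ℝ) + 1) *
      (2 * (((1 + 1 / (Dm (bq J) m : ℝ))⁻¹) ^ m * ((Dm (bq J) m : ℝ) + 1))) :=
    funext fun m => (wt_hasSum _ m).tsum_eq
  rw [e]
  set c : ℝ := 1 + J with hc
  have hc1 : 1 ≤ c := by
    rw [hc]
    have : (0 : ℝ) ≤ J := Nat.cast_nonneg _
    linarith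
  have hg : Summable fun m : ℕ => 128 * c ^ 2 * (64 * c) ^ 6 * 48 ^ 24 * (1 / (m : ℝ) ^ 3) :=
    (Real.summable_one_div_nat_pow.2 (by norm_num)).mul_left _
  refine Summable.of_norm_bounded_eventually_nat hg ?_
  filter_upwards [eventually_ge_atTop 24] with m hm
  have hm1 : 1 ≤ m := by omega
  have hmr : (1 : ℝ) ≤ m := by exact_mod_cast hm1
  have hm0 : (0 : ℝ) < m := by linarith
  have hB2 : (Bsum (bq J) m : ℝ) ^ 2 ≤ 4 * c * (m : ℝ) ^ 3 := by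
    have := Bsum_sq_le J hm1
    rw [hc]
    exact_mod_cast this
  have hB1 : (1 : ℝ) ≤ (Bsum (bq J) m : ℝ) := by
    have := le_Bsum J m
    exact_mod_cast hm1.trans this
  have hD2 : (Dm (bq J) m : ℝ) ^ 2 ≤ 4 * (Bsum (bq J) m : ℝ) := by exact_mod_cast Dm_sq_le J hm1
  have hD1 : (1 : ℝ) ≤ (Dm (bq J) m : ℝ) := by
    have : 1 ≤ Dm (bq J) m := by unfold Dm; omega
    exact_mod_cast this
  set B : ℝ := (Bsum (bq J) m : ℝ) with hB
  set D : ℝ := (Dm (bq J) m : ℝ) with hD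
  have hD4 : D ^ 4 ≤ 64 * c * (m : ℝ) ^ 3 := by
    have h1 : D ^ 4 = (D ^ 2) ^ 2 := by ring
    have h2 : (D ^ 2) ^ 2 ≤ (4 * B) ^ 2 := pow_le_pow_left₀ (by positivity) hD2 2
    rw [h1]
    nlinarith
  have hm3 : (m : ℝ) ^ 3 ≤ (m : ℝ) ^ 4 := pow_le_pow_right₀ hmr (by norm_num)
  have hcc : c ≤ c ^ 2 := by nlinarith
  have hBle : B ≤ 2 * c * (m : ℝ) ^ 2 := by
    refine le_of_sq_le_sq ?_ (by positivity)
    calc B ^ 2 ≤ 4 * c * (m : ℝ) ^ 3 := hB2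
      _ ≤ 4 * c ^ 2 * (m : ℝ) ^ 4 := by gcongr
      _ = (2 * c * (m : ℝ) ^ 2) ^ 2 := by ring
  have hDle : D ≤ 8 * c * m := by
    have h1 : D ^ 4 ≤ (8 * c * (m : ℝ)) ^ 4 := by
      have hc4 : c ≤ c ^ 4 := by
        have := pow_le_pow_right₀ hc1 (show 1 ≤ 4 by norm_num)
        rwa [pow_one] at this
      calc D ^ 4 ≤ 64 * c * (m : ℝ) ^ 3 := hD4
        _ ≤ 4096 * c ^ 4 * (m : ℝ) ^ 4 := by gcongr; norm_num
        _ = (8 * c * (m : ℝ)) ^ 4 := by ring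
    exact le_of_pow_le_pow_left₀ (by norm_num) (by positivity) h1
  set k : ℕ := m / 24 with hk
  have hk1 : 1 ≤ k := (Nat.le_div_iff_mul_le (by norm_num)).2 (by omega)
  have hkm : m ≤ 48 * k := by omega
  have hkr : (m : ℝ) / 48 ≤ k := by
    have : (m : ℝ) ≤ 48 * k := by exact_mod_cast hkm
    linarith
  have hkpos : (0 : ℝ) < k := by exact_mod_cast hk1
  have hpow : ((k : ℝ) / D) ^ 24 ≤ (1 + 1 / D) ^ m := by
    have h1 : (k : ℝ) / D ≤ (1 + 1 / D) ^ k := by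
      have h2 := one_add_mul_le_pow (show (-2 : ℝ) ≤ 1 / D by
        have : 0 ≤ 1 / D := by positivity
        linarith) k
      have h3 : (k : ℝ) * (1 / D) = k / D := by ring
      linarith
    calc ((k : ℝ) / D) ^ 24 ≤ ((1 + 1 / D) ^ k) ^ 24 := pow_le_pow_left₀ (by positivity) h1 24
      _ = (1 + 1 / D) ^ (k * 24) := by rw [pow_mul]
      _ ≤ (1 + 1 / D) ^ m := by
          refine pow_le_pow_right₀ ?_ (Nat.div_mul_le_self m 24)
          have : 0 ≤ 1 / D := by positivity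
          linarith
  have hrm : ((1 + 1 / D)⁻¹) ^ m ≤ D ^ 24 / (k : ℝ) ^ 24 := by
    rw [inv_pow]
    calc ((1 + 1 / D) ^ m)⁻¹ ≤ (((k : ℝ) / D) ^ 24)⁻¹ := inv_anti₀ (by positivity) hpow
      _ = D ^ 24 / (k : ℝ) ^ 24 := by rw [div_pow, inv_div]
  have hD24 : D ^ 24 ≤ (64 * c) ^ 6 * (m : ℝ) ^ 18 := by
    calc D ^ 24 = (D ^ 4) ^ 6 := by ring
      _ ≤ (64 * c * (m : ℝ) ^ 3) ^ 6 := pow_le_pow_left₀ (by positivity) hD4 6
      _ = (64 * c) ^ 6 * (m : ℝ) ^ 18 := by ring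
  have hk24 : ((m : ℝ) / 48) ^ 24 ≤ (k : ℝ) ^ 24 := pow_le_pow_left₀ (by positivity) hkr 24
  have hfin : ((1 + 1 / D)⁻¹) ^ m ≤ (64 * c) ^ 6 * (m : ℝ) ^ 18 / ((m : ℝ) / 48) ^ 24 :=
    hrm.trans (div_le_div₀ (by positivity) hD24 (by positivity) hk24)
  have hpoly : (B + 1) * (2 * (D + 1)) ≤ 128 * c ^ 2 * (m : ℝ) ^ 3 := by
    have h1 : (B + 1) * (2 * (D + 1)) ≤ (2 * (2 * c * (m : ℝ) ^ 2)) * (2 * (2 * (8 * c * m))) := by
      refine mul_le_mul (by linarith) (by linarith) (by positivity) (by positivity)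
    refine h1.trans (le_of_eq ?_)
    ring
  have hnn' : 0 ≤ (B + 1) * (2 * (((1 + 1 / D)⁻¹) ^ m * (D + 1))) := by positivity
  rw [Real.norm_of_nonneg hnn']
  calc (B + 1) * (2 * (((1 + 1 / D)⁻¹) ^ m * (D + 1)))
      = ((B + 1) * (2 * (D + 1))) * ((1 + 1 / D)⁻¹) ^ m := by ring
    _ ≤ (128 * c ^ 2 * (m : ℝ) ^ 3) * ((64 * c) ^ 6 * (m : ℝ) ^ 18 / ((m : ℝ) / 48) ^ 24) :=
        mul_le_mul hpoly hfin (by positivity) (by positivity)
    _ = 128 * c ^ 2 * (64 * c) ^ 6 * 48 ^ 24 * (1 / (m : ℝ) ^ 3) := by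
        rw [div_pow]
        have : (m : ℝ) ^ 24 = (m : ℝ) ^ 18 * (m : ℝ) ^ 3 * (m : ℝ) ^ 3 := by ring
        rw [this]
        field_simp

end Pool.Agent.Helper96.Frog
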