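import Pool.Agent.Helper96.FG.EXP
import Pool.Agent.Helper96.FG.SUM
import Pool.Agent.Helper96.FG.DET
import Pool.Agent.Helper96.FrogQuad

open MeasureTheory ProbabilityTheory Set Filter
open scoped ENNReal Topology

namespace Pool.Agent.Helper96.Frog

/-- Union bound over the particles of one site. -/
lemma law_exists_le {d : ℕ} [NeZero d] (m : ℕ) (x : Site d) {S : Set (Particle d)}
    (hS : MeasurableSet S) :
    law d (PMF.pure m) {ω | ∃ i < (ω x).1, (ω x).2 i ∈ S} ≤ m * particleLaw d S := by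
  have := isProb_particle (d := d)
  have hsub : {ω : Config d | ∃ i < (ω x).1, (ω x).2 i ∈ S} ⊆
      {ω | ω x ∈ {b : Block d | ∀ i < b.1, b.2 i ∈ Sᶜ}ᶜ} := by
    rintro ω ⟨i, hi, h⟩
    simp only [mem_ofPred_eq, mem_compl_iff, not_forall, not_not]
    exact ⟨i, hi, h⟩
  refine (measure_mono hsub).trans ?_
  have hT := measurableSet_blockForall hS.compl
  rw [law_eval _ x hT.compl]
  have hp := isProb_block (d := d) (PMF.pure m)
  rw [prob_compl_eq_one_sub hT, blockLaw_forall m hS.compl, prob_compl_eq_one_sub hS]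
  set q := particleLaw d S
  have hq : q ≤ 1 := prob_le_one
  rw [tsub_le_iff_right]
  have hb : ∀ n : ℕ, (1 : ℝ≥0∞) ≤ n * q + (1 - q) ^ n := by
    intro n
    induction n with
    | zero => simp
    | succ n ih =>
      have h1 : (1 : ℝ≥0∞) - q ≤ 1 := tsub_le_self
      calc (1 : ℝ≥0∞) = (1 - q) + q := (tsub_add_cancel_of_le hq).symm
        _ = (1 - q) * 1 + q := by rw [mul_one]
        _ ≤ (1 - q) * (n * q + (1 - q) ^ n) + q := by gcongr
        _ = (1 - q) * (n * q) + (1 - q) ^ (n + 1) + q := by ring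
        _ ≤ 1 * (n * q) + (1 - q) ^ (n + 1) + q := by gcongr
        _ = ((n + 1 : ℕ) : ℝ≥0∞) * q + (1 - q) ^ (n + 1) := by
            push_cast
            ring
  exact hb m

lemma measurableSet_displ (j : Fin 2) (p : ℝ) (x : Site 1) (s : ℕ) (a : ℤ) :
    MeasurableSet {π : Particle 1 | a ≤ lev j (traj p x π s)} := by
  have h1 : Measurable fun π : Particle 1 => lev j (traj p x π s) :=
    (measurable_of_countable (lev j)).comp (measurable_traj p x s)
  exact measurableSet_le measurable_const h1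

/-- The site at distance `w` behind the starting site of type `j`. -/
def behind (Z : ℕ) (j : Fin 2) (w : ℕ) : Site 1 :=
  start (zz Z) j + (-(w : ℤ)) • vec (dirOf j)

lemma lev_behind (Z : ℕ) (j : Fin 2) (w : ℕ) :
    lev j (behind Z j w) = lev j (start (zz Z) j) - w := by
  rw [behind, lev_add, lev_zsmul, lev_dirOf]
  ring

lemma dist_other {Z : ℕ} {j j' : Fin 2} (hjj : j' ≠ j) {x : Site 1} {w : ℕ}
    (hw : lev j x = lev j (start (zz Z) j) - w) :
    (Z : ℤ) ≤ (x 0 - start (zz Z) j' 0).natAbs + w := by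
  rcases fin2_cases j with rfl | rfl
  · have : j' = 1 := (fin2_cases j').resolve_left hjj
    subst this
    simp only [lev, start, zz, zero_ne_one, one_ne_zero, if_false, if_true, Pi.zero_apply] at hw ⊢
    omega
  · have : j' = 0 := (fin2_cases j').resolve_right hjj
    subst this
    simp only [lev, start, zz, one_ne_zero, if_false, if_true, Pi.zero_apply] at hw ⊢
    omega

/-- The union bound for `Cross`. -/
theorem law_cross_le {p : ℝ} (hp0 : 0 ≤ p) (hp1 : p ≤ 1) (N : ℕ) (b : ℕ → ℕ) (Z : ℕ)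
    {j j' : Fin 2} (hjj : j' ≠ j) :
    law 1 (PMF.pure N) (Cross p b Z j j') ≤
      N * ∑' q : ℕ × ℕ, (if Z ≤ Bsum b q.1 + q.2 then ENNReal.ofReal (wt b q) else 0) := by
  classical
  set E : ℕ × ℕ → ℕ → Set (Config 1) := fun q s =>
    {ω | Z ≤ Bsum b q.1 + q.2 ∧ ∃ i < (ω (behind Z j q.2)).1, (ω (behind Z j q.2)).2 i ∈
      {π : Particle 1 | lev j (behind Z j q.2) + ((q.1 + q.2 : ℕ) : ℤ) ≤
        lev j (traj p (behind Z j q.2) π s)}} with hE
  have hsub : Cross p b Z j j' ⊆ ⋃ q : ℕ × ℕ, ⋃ s ∈ Finset.range (Bsum b q.1 + 1), E q s := by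
    rintro ω ⟨x, hx, i, hi, s, m, h1, h2⟩
    obtain ⟨w, hw⟩ := Int.eq_ofNat_of_zero_le (sub_nonneg.2 hx.le)
    have hw' : lev j x = lev j (start (zz Z) j) - w := by linarith
    have hxb : x = behind Z j w := eq_of_lev (j := j) (by rw [lev_behind, hw'])
    have h3 := dist_other hjj hw'
    simp only [mem_iUnion, Finset.mem_range]
    refine ⟨(m, w), s, by simp only; omega, ?_, i, ?_, ?_⟩
    · simp only
      omega
    · simp only
      rw [← hxb]
      exact hi
    · simp only [mem_ofPred_eq]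
      rw [← hxb, hw']
      push_cast
      linarith
  have hEb : ∀ q : ℕ × ℕ, ∀ s ∈ Finset.range (Bsum b q.1 + 1),
      law 1 (PMF.pure N) (E q s) ≤ (if Z ≤ Bsum b q.1 + q.2 then
        (N : ℝ≥0∞) * ENNReal.ofReal (2 * ((1 + 1 / (Dm b q.1 : ℝ))⁻¹) ^ (q.1 + q.2)) else 0) := by
    intro q s hs
    rw [Finset.mem_range] at hs
    by_cases hc : Z ≤ Bsum b q.1 + q.2
    · rw [if_pos hc]
      have hsD : s ≤ (Dm b q.1) ^ 2 := by
        have h4 := Nat.lt_succ_sqrt (Bsum b q.1)
        unfold Dm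
        rw [pow_two]
        exact (Nat.lt_succ_iff.1 hs).trans h4.le
      have h5 : E q s ⊆ {ω | ∃ i < (ω (behind Z j q.2)).1, (ω (behind Z j q.2)).2 i ∈
          {π : Particle 1 | lev j (behind Z j q.2) + ((q.1 + q.2 : ℕ) : ℤ) ≤
            lev j (traj p (behind Z j q.2) π s)}} := fun ω hω => hω.2
      refine (measure_mono h5).trans ((law_exists_le N _ (measurableSet_displ _ _ _ _ _)).trans ?_)
      gcongr
      exact law_displacement hp0 hp1 j _ (by unfold Dm; omega) hsD (q.1 + q.2)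
    · have h6 : E q s = ∅ := by
        ext ω
        simp only [mem_empty_iff_false, iff_false]
        exact fun h => hc h.1
      rw [h6, measure_empty]
      exact zero_le
  refine (measure_mono hsub).trans ((measure_iUnion_le _).trans ?_)
  rw [← ENNReal.tsum_mul_left]
  refine ENNReal.tsum_le_tsum fun q => ?_
  refine (measure_biUnion_finset_le _ _).trans ((Finset.sum_le_sum (hEb q)).trans ?_)
  rw [Finset.sum_const, Finset.card_range, nsmul_eq_mul]
  by_cases hc : Z ≤ Bsum b q.1 + q.2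
  · have h7 : ENNReal.ofReal ((Bsum b q.1 : ℝ) + 1) = ((Bsum b q.1 + 1 : ℕ) : ℝ≥0∞) := by
      rw [← ENNReal.ofReal_natCast]
      push_cast
      rfl
    have h8 : ENNReal.ofReal (wt b q) = ((Bsum b q.1 + 1 : ℕ) : ℝ≥0∞) *
        ENNReal.ofReal (2 * ((1 + 1 / (Dm b q.1 : ℝ))⁻¹) ^ (q.1 + q.2)) := by
      rw [wt, ENNReal.ofReal_mul (by positivity), h7]
    rw [if_pos hc, if_pos hc, h8]
    refine le_of_eq ?_
    ring
  · rw [if_neg hc, if_neg hc]
    simp

/-- The probability of `Cross` tends to zero. -/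
theorem law_cross_small {p : ℝ} (hp0 : 0 ≤ p) (hp1 : p ≤ 1) (N J : ℕ) {ε : ℝ≥0∞} (hε : 0 < ε) :
    ∀ᶠ Z : ℕ in atTop, ∀ j j' : Fin 2, j' ≠ j →
      law 1 (PMF.pure N) (Cross p (bq J) Z j j') ≤ ε := by
  have hwt0 : ∀ q, 0 ≤ wt (bq J) q := by
    intro q
    unfold wt
    positivity
  have hlim : Tendsto (fun Z : ℕ => ∑' q : ℕ × ℕ,
      (if Z ≤ Bsum (bq J) q.1 + q.2 then wt (bq J) q else 0)) atTop (𝓝 (∑' _q : ℕ × ℕ, 0)) := by
    refine tendsto_tsum_of_dominated_convergence (bound := wt (bq J)) (wt_summable J) ?_ ?_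
    · intro q
      refine tendsto_const_nhds.congr' ?_
      filter_upwards [eventually_gt_atTop (Bsum (bq J) q.1 + q.2)] with Z hZ
      rw [if_neg (not_le.2 hZ)]
    · refine Eventually.of_forall fun Z q => ?_
      split_ifs
      · rw [Real.norm_of_nonneg (hwt0 q)]
      · rw [norm_zero]
        exact hwt0 q
  rw [tsum_zero] at hlim
  have hlim2 : Tendsto (fun Z : ℕ => (N : ℝ≥0∞) * ENNReal.ofReal (∑' q : ℕ × ℕ,
      (if Z ≤ Bsum (bq J) q.1 + q.2 then wt (bq J) q else 0))) atTop (𝓝 ((N : ℝ≥0∞) * 0)) := by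
    refine ENNReal.Tendsto.const_mul ?_ (Or.inr (ENNReal.natCast_ne_top N))
    rw [← ENNReal.ofReal_zero]
    exact ENNReal.tendsto_ofReal hlim
  rw [mul_zero] at hlim2
  filter_upwards [hlim2.eventually_le_const hε] with Z hZ j j' hjj
  refine (law_cross_le hp0 hp1 N (bq J) Z hjj).trans (le_trans (le_of_eq ?_) hZ)
  congr 1
  have hsum : Summable fun q : ℕ × ℕ =>
      (if Z ≤ Bsum (bq J) q.1 + q.2 then wt (bq J) q else 0) := by
    refine Summable.of_nonneg_of_le (fun q => ?_) (fun q => ?_) (wt_summable J)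
    · split_ifs
      · exact hwt0 q
      · exact le_rfl
    · split_ifs
      · exact le_rfl
      · exact hwt0 q
  rw [ENNReal.ofReal_tsum_of_nonneg (fun q => ?_) hsum]
  · refine tsum_congr fun q => ?_
    split_ifs
    · rfl
    · simp
  · split_ifs
    · exact hwt0 q
    · exact le_rfl

end Pool.Agent.Helper96.Frog
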