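import Pool.Agent.Helper96.FrogSpeed

open MeasureTheory ProbabilityTheory Set Filter
open scoped ENNReal Topology

namespace Pool.Agent.Helper96.Frog

/-- The particle data for which the neighbour `x + vec e` is not visited during the first `s` active
time steps. -/
def NoHit {d : ℕ} (p : ℝ) (x : Site d) (e : Dir d) (s : ℕ) : Set (Particle d) :=
  {π | ∀ s' ≤ s, traj p x π s' ≠ x + vec e}

/-- The direction in which type `j` spreads on the line: to the left for `j = 0`, to the right for
`j = 1`. -/
def dirOf (j : Fin 2) : Dir 1 := (0, decide (j = 1))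

/-- The starting site of type `1` on the line. -/
def zz (Z : ℕ) : Site 1 := fun _ => (Z : ℤ)

/-- The `n`-th site from the starting site of type `j` in its direction. -/
def front (Z : ℕ) (j : Fin 2) (n : ℕ) : Site 1 := start (zz Z) j + (n : ℤ) • vec (dirOf j)

/-- The coordinate, oriented in the direction of type `j`. -/
def lev (j : Fin 2) (y : Site 1) : ℤ := if j = 1 then y 0 else - y 0

/-- The partial sums of the time allowances. -/
def Bsum (b : ℕ → ℕ) (m : ℕ) : ℕ := ∑ n ∈ Finset.range m, b n

/-- The time allowances. -/
def bq (J n : ℕ) : ℕ := Nat.sqrt (n + J) + 1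

/-- The front of type `j` fails: some front site has no particle that visits the next front site
within the time allowance. -/
def FrontFail (p : ℝ) (b : ℕ → ℕ) (Z : ℕ) (j : Fin 2) : Set (Config 1) :=
  {ω | ∃ n, ∀ i < (ω (front Z j n)).1,
    (ω (front Z j n)).2 i ∈ NoHit p (front Z j n) (dirOf j) (b n)}

/-- Some particle started on the other side would be, with parameter `p`, at a front site of type
`j` too early, if it was activated as early as possible by type `j'`. -/
def Cross (p : ℝ) (b : ℕ → ℕ) (Z : ℕ) (j j' : Fin 2) : Set (Config 1) :=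
  {ω | ∃ x : Site 1, lev j x < lev j (start (zz Z) j) ∧ ∃ i < (ω x).1, ∃ s m : ℕ,
    lev j (start (zz Z) j) + m ≤ lev j (traj p x ((ω x).2 i) s) ∧
      (x 0 - start (zz Z) j' 0).natAbs + s ≤ Bsum b m}

end Pool.Agent.Helper96.Frog
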