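import Pool.Agent.Helper96.FG.Defs
import Pool.Agent.Helper96.FrogGF

open MeasureTheory ProbabilityTheory Set Filter
open scoped ENNReal Topology

namespace Pool.Agent.Helper96.Frog

lemma exp_lev_add (j : Fin 2) (y z : Site 1) : lev j (y + z) = lev j y + lev j z := by
  unfold lev
  split_ifs
  · rfl
  · simp only [Pi.add_apply]
    ring

lemma exp_lev_sum (j : Fin 2) (n : ℕ) (v : ℕ → Site 1) :
    lev j (∑ k ∈ Finset.range n, v k) = ∑ k ∈ Finset.range n, lev j (v k) := by
  induction n with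
  | zero => simp [lev]
  | succ n ih => rw [Finset.sum_range_succ, Finset.sum_range_succ, exp_lev_add, ih]

lemma exp_lintegral_steps (w : Dir 1 → ℝ≥0∞) (n : ℕ) :
    ∫⁻ f, ∏ k ∈ Finset.range n, w (f k)
      ∂(Measure.infinitePi fun _ : ℕ => uniformOn (Set.univ : Set (Dir 1))) =
      (∫⁻ e, w e ∂(uniformOn (Set.univ : Set (Dir 1)))) ^ n := by
  have := isProb_dir (d := 1)
  have hind := iIndepFun_infinitePi (P := fun _ : ℕ => uniformOn (Set.univ : Set (Dir 1)))
    (X := fun _ => w) (fun _ => measurable_of_countable _)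
  rw [lintegral_prod_eq_prod_lintegral_of_indepFun (Finset.range n)
    (fun k (f : ℕ → Dir 1) => w (f k)) hind
    (fun k => (measurable_of_countable w).comp (measurable_pi_apply k))]
  have h1 : ∀ k : ℕ, ∫⁻ f, w (f k)
      ∂(Measure.infinitePi fun _ : ℕ => uniformOn (Set.univ : Set (Dir 1))) =
        ∫⁻ e, w e ∂(uniformOn (Set.univ : Set (Dir 1))) := by
    intro k
    exact (measurePreserving_eval_infinitePi
      (fun _ : ℕ => uniformOn (Set.univ : Set (Dir 1))) k).lintegral_comp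
      (measurable_of_countable w)
  simp only [h1, Finset.prod_const, Finset.card_range]

/-- the mean of a weight over the two directions -/
lemma exp_mean (w : Dir 1 → ℝ≥0∞) :
    ∫⁻ e, w e ∂(uniformOn (Set.univ : Set (Dir 1))) = (2 : ℝ≥0∞)⁻¹ * (w (0, true) + w (0, false)) := by
  have h1 : (uniformOn (Set.univ : Set (Dir 1)) : Measure (Dir 1)) =
      (2 : ℝ≥0∞)⁻¹ • Measure.count := by
    unfold uniformOn ProbabilityTheory.cond
    rw [Measure.restrict_univ]
    congr 1
    rw [Measure.count_univ]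
    simp
  rw [h1, lintegral_smul_measure, lintegral_count, tsum_fintype, Fintype.sum_prod_type]
  simp

/-- the exponential moment of the displacement in the direction of type `j` -/
lemma exp_lintegral (j : Fin 2) {p : ℝ} (hp0 : 0 ≤ p) (hp1 : p ≤ 1) {c : ℝ≥0∞}
    (hc0 : c ≠ 0) (hct : c ≠ ⊤) (x : Site 1) (s : ℕ) :
    ∫⁻ π, c ^ (lev j (traj p x π s) - lev j x) ∂(particleLaw 1) =
      (ENNReal.ofReal p * (∫⁻ e, c ^ (lev j (vec e)) ∂(uniformOn (Set.univ : Set (Dir 1)))) +
        ENNReal.ofReal (1 - p) * 1) ^ s := by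
  classical
  have := isProb_dir (d := 1)
  have hmeas : Measurable fun π : Particle 1 => c ^ (lev j (traj p x π s) - lev j x) := by
    have h0 : Measurable (lev j) := measurable_of_countable _
    have h1 : Measurable fun π : Particle 1 => lev j (traj p x π s) - lev j x :=
      (h0.comp (measurable_traj p x s)).sub_const _
    exact (measurable_of_countable fun n : ℤ => c ^ n).comp h1
  have hadd : ∀ u v : ℤ, c ^ (u + v) = c ^ u * c ^ v := ENNReal.zpow_add hc0 hct
  have hprod : ∀ (n : ℕ) (v : ℕ → ℤ), c ^ (∑ k ∈ Finset.range n, v k) =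
      ∏ k ∈ Finset.range n, c ^ v k := by
    intro n v
    induction n with
    | zero => simp
    | succ n ih => rw [Finset.sum_range_succ, Finset.prod_range_succ, hadd, ih]
  set M : ℝ≥0∞ := ∫⁻ e, c ^ (lev j (vec e)) ∂(uniformOn (Set.univ : Set (Dir 1))) with hM
  rw [particleLaw, lintegral_prod_symm _ hmeas.aemeasurable]
  have h2 : ∀ b : ℕ → unitInterval, ∫⁻ f, c ^ (lev j (traj p x (f, b) s) - lev j x)
      ∂(Measure.infinitePi fun _ : ℕ => uniformOn (Set.univ : Set (Dir 1))) =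
      ∏ k ∈ Finset.range s, (if (b k : ℝ) ≤ p then M else 1) := by
    intro b
    set N : ℕ := ((Finset.range s).filter fun k => (b k : ℝ) ≤ p).card with hN
    have h3 : ∀ f : ℕ → Dir 1, c ^ (lev j (traj p x (f, b) s) - lev j x) =
        ∏ k ∈ Finset.range N, c ^ (lev j (vec (f k))) := by
      intro f
      have h4 : lev j (traj p x (f, b) s) - lev j x = ∑ k ∈ Finset.range N, lev j (vec (f k)) := by
        rw [← exp_lev_sum]
        unfold traj
        rw [exp_lev_add, add_sub_cancel_left, hN]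
        unfold advances
        congr
      rw [h4, hprod]
    have h6 : ∏ k ∈ Finset.range s, (if (b k : ℝ) ≤ p then M else 1) = M ^ N := by
      rw [Finset.prod_ite, Finset.prod_const, Finset.prod_const_one, ← hN, mul_one]
    simp only [h3]
    rw [exp_lintegral_steps (fun e => c ^ (lev j (vec e))) N, h6]
  simp only [h2]
  exact lintegral_coins hp0 hp1 1 M s

/-- `((c + 1 / c) / 2) ^ s ≤ 2` for `c = 1 + 1 / D`, `s ≤ D ^ 2` -/
lemma exp_real {D s : ℕ} (hD : 1 ≤ D) (hs : s ≤ D ^ 2) :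
    (((1 + 1 / (D : ℝ)) + (1 + 1 / (D : ℝ))⁻¹) / 2) ^ s ≤ 2 := by
  have hD1 : (1 : ℝ) ≤ D := by exact_mod_cast hD
  have hD0 : (0 : ℝ) < D := by linarith
  set t : ℝ := 1 / (D : ℝ) with ht
  have ht0 : 0 < t := by positivity
  have h1 : ((1 + t) + (1 + t)⁻¹) / 2 ≤ 1 + t ^ 2 / 2 := by
    have h2 : (1 + t)⁻¹ ≤ 1 - t + t ^ 2 := by
      rw [inv_le_iff_one_le_mul₀ (by linarith)]
      nlinarith [pow_pos ht0 3]
    linarith
  have h3 : 1 + t ^ 2 / 2 ≤ Real.exp (t ^ 2 / 2) := by
    have := Real.add_one_le_exp (t ^ 2 / 2)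
    linarith
  have h0 : 0 ≤ ((1 + t) + (1 + t)⁻¹) / 2 := by positivity
  have h4 : ((1 + t) + (1 + t)⁻¹) / 2 ≤ Real.exp (t ^ 2 / 2) := h1.trans h3
  calc (((1 + t) + (1 + t)⁻¹) / 2) ^ s ≤ Real.exp (t ^ 2 / 2) ^ s := pow_le_pow_left₀ h0 h4 s
    _ = Real.exp (s * (t ^ 2 / 2)) := by rw [← Real.exp_nat_mul]
    _ ≤ Real.exp (1 / 2) := by
        apply Real.exp_le_exp.mpr
        have h5 : (s : ℝ) ≤ (D : ℝ) ^ 2 := by exact_mod_cast hs
        have h6 : t ^ 2 * (D : ℝ) ^ 2 = 1 := by
          rw [ht]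
          field_simp
        have h7 : (s : ℝ) * t ^ 2 ≤ (D : ℝ) ^ 2 * t ^ 2 :=
          mul_le_mul_of_nonneg_right h5 (by positivity)
        nlinarith
    _ ≤ 2 := by
        have h8 : Real.exp (1 / 2) ^ 2 = Real.exp 1 := by
          rw [← Real.exp_nat_mul]
          norm_num
        have h9 := Real.exp_one_lt_d9
        have h10 := Real.exp_pos (1 / 2)
        nlinarith

/-- the mean of the weight `c ^ lev` -/
lemma exp_mean_lev (j : Fin 2) (c : ℝ≥0∞) :
    ∫⁻ e, c ^ (lev j (vec e)) ∂(uniformOn (Set.univ : Set (Dir 1))) =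
      (2 : ℝ≥0∞)⁻¹ * (c + c⁻¹) := by
  rw [exp_mean]
  by_cases hj : j = 1
  · simp [lev, vec, hj, zpow_neg_one]
  · simp [lev, vec, hj, zpow_neg_one, add_comm]

/-- The exponential bound for the displacement of a particle. -/
theorem law_displacement {p : ℝ} (hp0 : 0 ≤ p) (hp1 : p ≤ 1) (j : Fin 2) (x : Site 1)
    {D s : ℕ} (hD : 1 ≤ D) (hs : s ≤ D ^ 2) (a : ℕ) :
    particleLaw 1 {π | lev j x + a ≤ lev j (traj p x π s)} ≤
      ENNReal.ofReal (2 * ((1 + 1 / (D : ℝ))⁻¹) ^ a) := by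
  have hD1 : (1 : ℝ) ≤ D := by exact_mod_cast hD
  set C : ℝ := 1 + 1 / (D : ℝ) with hC
  have hC1 : 1 ≤ C := by
    have : 0 < 1 / (D : ℝ) := by positivity
    linarith
  have hC0 : 0 < C := by linarith
  set c : ℝ≥0∞ := ENNReal.ofReal C with hc
  have hc0 : c ≠ 0 := by
    rw [hc]
    exact (ENNReal.ofReal_pos.mpr hC0).ne'
  have hct : c ≠ ⊤ := ENNReal.ofReal_ne_top
  have hc1 : 1 ≤ c := by
    rw [hc, ← ENNReal.ofReal_one]
    exact ENNReal.ofReal_le_ofReal hC1
  -- the moment is at most two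
  have hmom : ∫⁻ π, c ^ (lev j (traj p x π s) - lev j x) ∂(particleLaw 1) ≤ 2 := by
    rw [exp_lintegral j hp0 hp1 hc0 hct x s, exp_mean_lev]
    have e1 : (2 : ℝ≥0∞)⁻¹ * (c + c⁻¹) = ENNReal.ofReal ((C + C⁻¹) / 2) := by
      rw [hc, ← ENNReal.ofReal_inv_of_pos hC0, ← ENNReal.ofReal_add hC0.le (by positivity),
        show (2 : ℝ≥0∞) = ENNReal.ofReal 2 by simp,
        ← ENNReal.ofReal_inv_of_pos (by norm_num), ← ENNReal.ofReal_mul (by norm_num)]
      congr 1
      ring
    rw [e1, mul_one, ← ENNReal.ofReal_mul hp0, ← ENNReal.ofReal_add (by positivity) (by linarith),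
      ← ENNReal.ofReal_pow (by
        have : 0 ≤ p * ((C + C⁻¹) / 2) := by positivity
        linarith)]
    rw [show (2 : ℝ≥0∞) = ENNReal.ofReal 2 by simp]
    apply ENNReal.ofReal_le_ofReal
    have h1 : 1 ≤ (C + C⁻¹) / 2 := by
      have h2 : 0 ≤ (C - 1) ^ 2 / C := by positivity
      have h3 : (C - 1) ^ 2 / C = C + C⁻¹ - 2 := by
        field_simp
        ring
      linarith
    calc (p * ((C + C⁻¹) / 2) + (1 - p)) ^ s ≤ ((C + C⁻¹) / 2) ^ s := by
          apply pow_le_pow_left₀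
          · have : 0 ≤ p * ((C + C⁻¹) / 2) := by positivity
            linarith
          · nlinarith
      _ ≤ 2 := exp_real hD hs
  -- Markov
  have hsub : {π : Particle 1 | lev j x + a ≤ lev j (traj p x π s)} ⊆
      {π | c ^ a ≤ c ^ (lev j (traj p x π s) - lev j x)} := by
    intro π hπ
    have h1 : (a : ℤ) ≤ lev j (traj p x π s) - lev j x := by
      have h2 : lev j x + a ≤ lev j (traj p x π s) := hπ
      linarith
    have h3 : c ^ (a : ℤ) ≤ c ^ (lev j (traj p x π s) - lev j x) :=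
      ENNReal.zpow_le_of_le hc1 h1
    rw [zpow_natCast] at h3
    exact h3
  have hmeas : Measurable fun π : Particle 1 => c ^ (lev j (traj p x π s) - lev j x) := by
    have h0 : Measurable (lev j) := measurable_of_countable _
    have h1 : Measurable fun π : Particle 1 => lev j (traj p x π s) - lev j x :=
      (h0.comp (measurable_traj p x s)).sub_const _
    exact (measurable_of_countable fun n : ℤ => c ^ n).comp h1
  have hmk := mul_meas_ge_le_lintegral₀ (μ := particleLaw 1) hmeas.aemeasurable (c ^ a)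
  have hca0 : c ^ a ≠ 0 := pow_ne_zero _ hc0
  have hcat : c ^ a ≠ ⊤ := ENNReal.pow_ne_top hct
  have h5 : particleLaw 1 {π | c ^ a ≤ c ^ (lev j (traj p x π s) - lev j x)} ≤ 2 / c ^ a := by
    rw [ENNReal.le_div_iff_mul_le (Or.inl hca0) (Or.inl hcat), mul_comm]
    exact hmk.trans hmom
  refine (measure_mono hsub).trans (h5.trans (le_of_eq ?_))
  rw [ENNReal.ofReal_mul (by norm_num), ENNReal.ofReal_pow (by positivity),
    ENNReal.ofReal_inv_of_pos hC0, ← hc, ENNReal.div_eq_inv_mul, ENNReal.inv_pow, mul_comm]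
  simp

end Pool.Agent.Helper96.Frog
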