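import Pool.Agent.Helper96.FG.HIT

open MeasureTheory ProbabilityTheory Set Filter
open scoped ENNReal Topology

namespace Pool.Agent.Helper96.Frog

/-- The probability that the front of type `j` fails. -/
theorem law_frontFail {p : ℝ} (hp0 : 0 < p) (hp1 : p ≤ 1) {N : ℕ} (hN : 12 ≤ N) {J : ℕ}
    (hJ : 1 ≤ J) (Z : ℕ) (j : Fin 2) :
    law 1 (PMF.pure N) (FrontFail p (bq J) Z j) ≤ ENNReal.ofReal (2 ^ 16 / (p ^ 4 * J)) := by
  have hJ0 : (0 : ℝ) < J := by exact_mod_cast hJ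
  have hC : (0 : ℝ) < 2 ^ 16 / p ^ 4 := by positivity
  -- the probability of the `n`-th event
  have hn : ∀ n : ℕ, law 1 (PMF.pure N) {ω : Config 1 | ∀ i < (ω (front Z j n)).1,
      (ω (front Z j n)).2 i ∈ NoHit p (front Z j n) (dirOf j) (bq J n)} ≤
      ENNReal.ofReal (2 ^ 16 / p ^ 4 * (1 / ((n : ℝ) + J) - 1 / ((n : ℝ) + 1 + J))) := by
    intro n
    rw [law_noHit]
    have hb : 1 ≤ bq J n := by unfold bq; omega
    have hq1 : particleLaw 1 (NoHit p (front Z j n) (dirOf j) (bq J n)) ≤ 1 := by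
      have := isProb_particle (d := 1)
      exact prob_le_one
    have h1 : (particleLaw 1 (NoHit p (front Z j n) (dirOf j) (bq J n))) ^ N ≤
        (particleLaw 1 (NoHit p (front Z j n) (dirOf j) (bq J n))) ^ 12 :=
      pow_le_pow_right_of_le_one' hq1 hN
    refine h1.trans ((noHit_pow hp0 hp1 _ _ hb).trans (ENNReal.ofReal_le_ofReal ?_))
    have hsq : (n : ℝ) + J + 1 ≤ ((bq J n : ℕ) : ℝ) ^ 2 := by
      have := Nat.succ_le_succ_sqrt (n + J)
      have h2 : n + J + 1 ≤ (bq J n) ^ 2 := by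
        unfold bq
        rw [pow_two]
        exact this
      exact_mod_cast h2
    have hnJ : (0 : ℝ) < (n : ℝ) + J := by positivity
    have hbp : (0 : ℝ) < ((bq J n : ℕ) : ℝ) := by exact_mod_cast hb
    have hdiff : 1 / ((n : ℝ) + J) - 1 / ((n : ℝ) + 1 + J) =
        1 / (((n : ℝ) + J) * ((n : ℝ) + 1 + J)) := by
      have : (n : ℝ) + 1 + J ≠ 0 := by positivity
      field_simp
      ring
    rw [hdiff, mul_pow, mul_one_div, div_div]
    apply div_le_div_of_nonneg_left (by positivity) (by positivity)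
    have h4 : ((n : ℝ) + J) * ((n : ℝ) + 1 + J) ≤ ((bq J n : ℕ) : ℝ) ^ 4 := by
      have e4 : ((bq J n : ℕ) : ℝ) ^ 4 = ((bq J n : ℕ) : ℝ) ^ 2 * ((bq J n : ℕ) : ℝ) ^ 2 := by ring
      rw [e4]
      have a1 : (n : ℝ) + J ≤ ((bq J n : ℕ) : ℝ) ^ 2 := by linarith
      have a2 : (n : ℝ) + 1 + J ≤ ((bq J n : ℕ) : ℝ) ^ 2 := by linarith
      exact mul_le_mul a1 a2 (by positivity) (by positivity)
    exact mul_le_mul_of_nonneg_left h4 (by positivity)
  -- the union bound
  have hU : FrontFail p (bq J) Z j = ⋃ n : ℕ, {ω : Config 1 | ∀ i < (ω (front Z j n)).1,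
      (ω (front Z j n)).2 i ∈ NoHit p (front Z j n) (dirOf j) (bq J n)} := by
    ext ω
    simp only [FrontFail, Set.mem_ofPred_eq, mem_iUnion]
  rw [hU]
  refine (measure_iUnion_le _).trans ((ENNReal.tsum_le_tsum hn).trans ?_)
  rw [ENNReal.tsum_eq_iSup_nat]
  refine iSup_le fun M => ?_
  rw [← ENNReal.ofReal_sum_of_nonneg]
  · apply ENNReal.ofReal_le_ofReal
    rw [← Finset.mul_sum]
    have hT : ∀ M : ℕ, ∑ n ∈ Finset.range M, (1 / ((n : ℝ) + J) - 1 / ((n : ℝ) + 1 + J)) =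
        1 / (J : ℝ) - 1 / ((M : ℝ) + J) := by
      intro M
      induction M with
      | zero => simp
      | succ M ih => rw [Finset.sum_range_succ, ih]; push_cast; ring
    rw [hT]
    have : 0 ≤ 1 / ((M : ℝ) + J) := by positivity
    calc 2 ^ 16 / p ^ 4 * (1 / (J : ℝ) - 1 / ((M : ℝ) + J))
        ≤ 2 ^ 16 / p ^ 4 * (1 / (J : ℝ)) := mul_le_mul_of_nonneg_left (by linarith) hC.le
      _ = 2 ^ 16 / (p ^ 4 * J) := by rw [mul_one_div, div_div]
  · intro n _
    apply mul_nonneg hC.le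
    rw [sub_nonneg]
    apply one_div_le_one_div_of_le (by positivity) (by linarith)

end Pool.Agent.Helper96.Frog
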