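import Pool.Agent.Helper96.FG.HITB

/-! Sheet FG, row HIT (helper46). -/

open MeasureTheory ProbabilityTheory Set Filter
open scoped ENNReal Topology

namespace Pool.Agent.Helper96.Frog

/-- The first passage bound. -/
theorem noHit_pow {p : ℝ} (hp0 : 0 < p) (hp1 : p ≤ 1) (x : Site 1) (e : Dir 1) {s : ℕ}
    (hs : 1 ≤ s) :
    (particleLaw 1 (NoHit p x e s)) ^ 12 ≤ ENNReal.ofReal (2 ^ 16 / (p * s) ^ 4) := by
  have := isProb_particle (d := 1)
  have hs0 : (0 : ℝ) < s := by exact_mod_cast hs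
  have hps : 0 < p * s := mul_pos hp0 hs0
  set δ : ℝ := (2 / (p * s)) ^ ((1 : ℝ) / 3) with hδ
  have hδ0 : 0 < δ := Real.rpow_pos_of_pos (by positivity) _
  have hδ3 : δ ^ 3 = 2 / (p * s) := by
    rw [hδ, ← Real.rpow_natCast, ← Real.rpow_mul (by positivity)]
    norm_num
  have hδ12 : (2 : ℝ) ^ 16 / (p * s) ^ 4 = (2 * δ) ^ 12 := by
    have e1 : (2 * δ) ^ 12 = 2 ^ 12 * (δ ^ 3) ^ 4 := by ring
    rw [e1, hδ3, div_pow]
    ring
  rw [hδ12, ENNReal.ofReal_pow (by positivity)]
  refine pow_le_pow_left₀ (by positivity) ?_ 12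
  by_cases h1 : 1 ≤ δ
  · refine (prob_le_one).trans ?_
    rw [← ENNReal.ofReal_one]
    exact ENNReal.ofReal_le_ofReal (by linarith)
  · have h1 := not_le.1 h1
    refine (noHit_le hp0.le hp1 x e s (r := 1 - δ) (by linarith) (by linarith)).trans ?_
    refine ENNReal.ofReal_le_ofReal ?_
    set ρ : ℝ := 2 * (1 - δ) / (1 + (1 - δ) ^ 2) with hρ
    have h2 : δ ^ 2 / 2 ≤ 1 - ρ := by
      rw [hρ, div_le_iff₀ (by norm_num), one_sub_div (by positivity), div_mul_eq_mul_div,
        le_div_iff₀ (by positivity)]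
      nlinarith [sq_nonneg δ, sq_nonneg (1 - δ), mul_nonneg (sq_nonneg δ) hδ0.le]
    have h3 : 1 - p + p * ρ ≤ Real.exp (-(p * δ ^ 2 / 2)) := by
      have h4 := Real.add_one_le_exp (-(p * δ ^ 2 / 2))
      have h5 := mul_le_mul_of_nonneg_left h2 hp0.le
      linarith
    have hρ0 : 0 ≤ ρ := by
      have : 0 ≤ 1 - δ := by linarith
      positivity
    have h7 : 0 ≤ 1 - p + p * ρ := by
      have : 0 ≤ p * ρ := mul_nonneg hp0.le hρ0
      linarith
    have h8 : (1 - p + p * ρ) ^ s ≤ δ := by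
      calc (1 - p + p * ρ) ^ s ≤ Real.exp (-(p * δ ^ 2 / 2)) ^ s := pow_le_pow_left₀ h7 h3 s
        _ = Real.exp (-(1 / δ)) := by
            rw [← Real.exp_nat_mul]
            congr 1
            have h9 : p * s * δ ^ 3 = 2 := by rw [hδ3]; field_simp
            have h10 : δ * (s * (p * δ ^ 2 / 2)) = 1 := by
              have : δ * (s * (p * δ ^ 2 / 2)) = p * s * δ ^ 3 / 2 := by ring
              rw [this, h9]
              norm_num
            have h11 : (s : ℝ) * (p * δ ^ 2 / 2) = 1 / δ := by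
              rw [eq_div_iff hδ0.ne']
              linarith
            rw [mul_neg, h11]
        _ ≤ δ := by
            rw [Real.exp_neg, inv_le_comm₀ (Real.exp_pos _) hδ0, ← one_div]
            have := Real.add_one_le_exp (1 / δ)
            linarith
    linarith

lemma noHit_one_le (x : Site 1) (e : Dir 1) {s : ℕ} (hs : 1 ≤ s) :
    particleLaw 1 (NoHit 1 x e s) ≤ ENNReal.ofReal (1 / 2) := by
  have := isProb_particle (d := 1)
  have h1 : NoHit 1 x e s ⊆ (firstStep 1 e)ᶜ := by
    intro π hπ h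
    exact hπ 1 hs ((traj_one_iff 1 x π e).2 h)
  refine (measure_mono h1).trans ?_
  rw [prob_compl_eq_one_sub (measurableSet_firstStep 1 e),
    particleLaw_firstStep zero_le_one le_rfl, ← ENNReal.ofReal_one,
    ← ENNReal.ofReal_sub _ (by positivity)]
  refine ENNReal.ofReal_le_ofReal ?_
  norm_num

/-- The probability that no particle of `x` visits the neighbour in time. -/
lemma law_noHit {d : ℕ} [NeZero d] (N : ℕ) (p : ℝ) (x : Site d) (e : Dir d) (s : ℕ) :
    law d (PMF.pure N) {ω | ∀ i < (ω x).1, (ω x).2 i ∈ NoHit p x e s} =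
      (particleLaw d (NoHit p x e s)) ^ N := by
  have h1 := law_eval (PMF.pure N) x (measurableSet_blockForall (measurableSet_noHit p x e s))
  rw [blockLaw_forall N (measurableSet_noHit p x e s)] at h1
  exact h1

end Pool.Agent.Helper96.Frog
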