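import Pool.Agent.Helper96.FG.Defs

open MeasureTheory ProbabilityTheory Set Filter
open scoped ENNReal Topology

namespace Pool.Agent.Helper96.Frog

/-- The step sequences whose walk does not visit `vec e` within `n` steps. -/
def NoHitS (e : Dir 1) (n : ℕ) : Set (ℕ → Dir 1) :=
  {f | ∀ n' ≤ n, ∑ k ∈ Finset.range n', vec (f k) ≠ vec e}

/-- the law of the steps -/
noncomputable def hitaP : Measure (ℕ → Dir 1) :=
  Measure.infinitePi fun _ : ℕ => uniformOn (Set.univ : Set (Dir 1))

lemma hita_prob0 : IsProbabilityMeasure (uniformOn (Set.univ : Set (Dir 1))) :=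
  isProb_dir (d := 1)

lemma hita_prob : IsProbabilityMeasure hitaP := by
  have := hita_prob0
  unfold hitaP
  infer_instance

attribute [local instance] hita_prob0 hita_prob

/-- one coordinate, oriented in the direction of `e` -/
def hitaX (e e' : Dir 1) : ℤ := vec e 0 * vec e' 0

lemma hita_vec (e : Dir 1) : vec e 0 = 1 ∨ vec e 0 = -1 := by
  obtain ⟨a, b⟩ := e
  have ha : (0 : Fin 1) = a := Subsingleton.elim _ _
  unfold vec
  cases b <;> simp [ha]

lemma hita_X (e e' : Dir 1) : hitaX e e' = 1 ∨ hitaX e e' = -1 := by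
  unfold hitaX
  rcases hita_vec e with h | h <;> rcases hita_vec e' with h' | h' <;> simp [h, h']

/-- the walk, oriented in the direction of `e` -/
def hitaS (e : Dir 1) (n : ℕ) (f : ℕ → Dir 1) : ℤ := ∑ k ∈ Finset.range n, hitaX e (f k)

lemma hita_S_succ (e : Dir 1) (n : ℕ) (f : ℕ → Dir 1) :
    hitaS e (n + 1) f = hitaS e n f + hitaX e (f n) := by
  unfold hitaS
  rw [Finset.sum_range_succ]

lemma hita_iff (e : Dir 1) (n : ℕ) (f : ℕ → Dir 1) :
    ∑ k ∈ Finset.range n, vec (f k) = vec e ↔ hitaS e n f = 1 := by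
  have h1 : hitaS e n f = vec e 0 * (∑ k ∈ Finset.range n, vec (f k)) 0 := by
    unfold hitaS hitaX
    rw [Finset.sum_apply, Finset.mul_sum]
  rw [h1]
  constructor
  · intro h
    rw [h]
    rcases hita_vec e with h2 | h2 <;> simp [h2]
  · intro h
    ext j
    have hj : j = 0 := Subsingleton.elim _ _
    subst hj
    rcases hita_vec e with h2 | h2
    · rw [h2] at h ⊢
      linarith
    · rw [h2] at h ⊢
      linarith

lemma hita_mem (e : Dir 1) (n : ℕ) (f : ℕ → Dir 1) :
    f ∈ NoHitS e n ↔ ∀ n' ≤ n, hitaS e n' f ≠ 1 := by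
  unfold NoHitS
  constructor
  · intro h n' hn' h1
    exact h n' hn' ((hita_iff e n' f).2 h1)
  · intro h n' hn' h1
    exact h n' hn' ((hita_iff e n' f).1 h1)

lemma hita_nonpos (e : Dir 1) {n : ℕ} {f : ℕ → Dir 1} (h : f ∈ NoHitS e n) :
    ∀ n' ≤ n, hitaS e n' f ≤ 0 := by
  rw [hita_mem] at h
  intro n'
  induction n' with
  | zero =>
    intro _
    simp [hitaS]
  | succ k ih =>
    intro hk
    have h1 := ih (by omega)
    have h2 := h (k + 1) hk
    rw [hita_S_succ] at h2 ⊢
    rcases hita_X e (f k) with h3 | h3 <;> omega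

lemma hita_S_congr (e : Dir 1) {n : ℕ} {f g : ℕ → Dir 1} (h : ∀ k < n, f k = g k) {m : ℕ}
    (hm : m ≤ n) : hitaS e m f = hitaS e m g := by
  unfold hitaS
  refine Finset.sum_congr rfl fun k hk => ?_
  rw [h k (by rw [Finset.mem_range] at hk; omega)]

lemma hita_mem_congr (e : Dir 1) {n : ℕ} {f g : ℕ → Dir 1} (h : ∀ k < n, f k = g k) :
    f ∈ NoHitS e n ↔ g ∈ NoHitS e n := by
  rw [hita_mem, hita_mem]
  constructor
  · intro h1 n' hn'
    rw [← hita_S_congr e h hn']
    exact h1 n' hn'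
  · intro h1 n' hn'
    rw [hita_S_congr e h hn']
    exact h1 n' hn'

/-- the restriction to the first `n` steps -/
def hitaRes (n : ℕ) (f : ℕ → Dir 1) : Finset.range n → Dir 1 := fun k => f k

/-- an extension -/
noncomputable def hitaExt (n : ℕ) (t : Finset.range n → Dir 1) : ℕ → Dir 1 := fun k =>
  if h : k ∈ Finset.range n then t ⟨k, h⟩ else (0, true)

lemma hita_ext (n : ℕ) (f : ℕ → Dir 1) : ∀ k < n, f k = hitaExt n (hitaRes n f) k := by
  intro k hk
  unfold hitaExt hitaRes
  rw [dif_pos (Finset.mem_range.2 hk)]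

lemma hita_res_meas (n : ℕ) : Measurable (hitaRes n) :=
  measurable_pi_lambda _ fun k => measurable_pi_apply (k : ℕ)

/-- functions of the first `n` steps are measurable -/
lemma hita_meas {n : ℕ} {g : (ℕ → Dir 1) → ℝ} (hg : ∀ f f', (∀ k < n, f k = f' k) → g f = g f') :
    Measurable g := by
  have h1 : g = (fun t => g (hitaExt n t)) ∘ hitaRes n := by
    ext f
    exact hg _ _ (hita_ext n f)
  rw [h1]
  exact (measurable_of_countable _).comp (hita_res_meas n)

lemma measurableSet_noHitS (e : Dir 1) (n : ℕ) : MeasurableSet (NoHitS e n) := by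
  have h1 : NoHitS e n = hitaRes n ⁻¹' {t | hitaExt n t ∈ NoHitS e n} := by
    ext f
    exact hita_mem_congr e (hita_ext n f)
  rw [h1]
  exact hita_res_meas n (Set.Countable.measurableSet (Set.to_countable _))

/-- independence of the next step -/
lemma hita_indep {n : ℕ} {g : (ℕ → Dir 1) → ℝ} (hg : ∀ f f', (∀ k < n, f k = f' k) → g f = g f')
    (h : Dir 1 → ℝ) :
    ∫ f, g f * h (f n) ∂hitaP = (∫ f, g f ∂hitaP) * ∫ e', h e' ∂(uniformOn (Set.univ : Set (Dir 1))) := by
  have hind0 : iIndepFun (fun (k : ℕ) (f : ℕ → Dir 1) => f k) hitaP :=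
    iIndepFun_infinitePi (P := fun _ : ℕ => uniformOn (Set.univ : Set (Dir 1)))
      (X := fun _ => id) (fun _ => measurable_id)
  have hdis : Disjoint (Finset.range n) {n} := by
    rw [Finset.disjoint_singleton_right, Finset.mem_range]
    exact lt_irrefl n
  have hind1 := hind0.indepFun_finset (Finset.range n) {n} hdis (fun k => measurable_pi_apply k)
  have hind2 : IndepFun g (fun f : ℕ → Dir 1 => h (f n)) hitaP := by
    have h1 := hind1.comp
      (φ := fun t => g (hitaExt n t)) (ψ := fun t => h (t ⟨n, Finset.mem_singleton_self n⟩))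
      (measurable_of_countable _) (measurable_of_countable _)
    have h2 : (fun t => g (hitaExt n t)) ∘ (fun (a : ℕ → Dir 1) (i : Finset.range n) => a i) = g := by
      ext f
      exact (hg _ _ (hita_ext n f)).symm
    rw [h2] at h1
    exact h1
  have hhm : Measurable fun f : ℕ → Dir 1 => h (f n) :=
    (measurable_of_countable h).comp (measurable_pi_apply n)
  have h3 := hind2.integral_mul_eq_mul_integral (hita_meas hg).aestronglyMeasurable
    hhm.aestronglyMeasurable
  have h4 : ∫ f : ℕ → Dir 1, h (f n) ∂hitaP = ∫ e', h e' ∂(uniformOn (Set.univ : Set (Dir 1))) := by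
    have h5 := (measurePreserving_eval_infinitePi
      (fun _ : ℕ => uniformOn (Set.univ : Set (Dir 1))) n)
    rw [← h5.map_eq, integral_map h5.measurable.aemeasurable
      (measurable_of_countable h).aestronglyMeasurable]
    rfl
  rw [← h4]
  exact h3

lemma hita_mean (e : Dir 1) (r : ℝ) :
    ∫ e', r ^ (-hitaX e e') ∂(uniformOn (Set.univ : Set (Dir 1))) = (r + r⁻¹) / 2 := by
  rw [integral_fintype (f := fun e' => r ^ (-hitaX e e')) Integrable.of_finite]
  have h1 : ∀ e' : Dir 1, (uniformOn (Set.univ : Set (Dir 1))).real {e'} = 1 / 2 := by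
    intro e'
    rw [Measure.real, uniformOn_univ]
    simp
  simp only [h1, smul_eq_mul]
  rw [← Finset.mul_sum]
  have h2 : ∑ e' : Dir 1, r ^ (-hitaX e e') = r + r⁻¹ := by
    rw [Fintype.sum_prod_type]
    simp only [Fintype.sum_bool, Finset.univ_unique, Fin.default_eq_zero, Finset.sum_singleton]
    have h3 : vec ((0, true) : Dir 1) 0 = 1 := by simp [vec]
    have h4 : vec ((0, false) : Dir 1) 0 = -1 := by simp [vec]
    unfold hitaX
    rw [h3, h4]
    rcases hita_vec e with h5 | h5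
    · rw [h5]
      simp [add_comm]
    · rw [h5]
      simp
  rw [h2]
  ring

open Classical in
/-- indicator of no hit -/
noncomputable def hitaU (e : Dir 1) (n : ℕ) (f : ℕ → Dir 1) : ℝ := if f ∈ NoHitS e n then 1 else 0

lemma hita_U_congr (e : Dir 1) {n : ℕ} {f g : ℕ → Dir 1} (h : ∀ k < n, f k = g k) :
    hitaU e n f = hitaU e n g := by
  unfold hitaU
  by_cases h1 : f ∈ NoHitS e n
  · rw [if_pos h1, if_pos ((hita_mem_congr e h).1 h1)]
  · rw [if_neg h1, if_neg fun h2 => h1 ((hita_mem_congr e h).2 h2)]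

lemma hita_F_congr (e : Dir 1) (r : ℝ) {n : ℕ} {f g : ℕ → Dir 1} (h : ∀ k < n, f k = g k) :
    hitaU e n f * r ^ (-hitaS e n f) = hitaU e n g * r ^ (-hitaS e n g) := by
  rw [hita_U_congr e h, hita_S_congr e h le_rfl]

lemma hita_F_bd (e : Dir 1) {r : ℝ} (hr0 : 0 < r) (hr1 : r < 1) (n : ℕ) (f : ℕ → Dir 1) :
    0 ≤ hitaU e n f * r ^ (-hitaS e n f) ∧ hitaU e n f * r ^ (-hitaS e n f) ≤ hitaU e n f := by
  unfold hitaU
  split_ifs with h
  · have h1 := hita_nonpos e h n le_rfl
    have h2 : r ^ (-hitaS e n f) ≤ 1 := by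
      have h3 : -hitaS e n f = (((-hitaS e n f).toNat : ℕ) : ℤ) := by
        rw [Int.toNat_of_nonneg]
        omega
      rw [h3, zpow_natCast]
      exact pow_le_one₀ hr0.le hr1.le
    have h4 : 0 < r ^ (-hitaS e n f) := zpow_pos hr0 _
    constructor
    · rw [one_mul]
      exact h4.le
    · rw [one_mul]
      exact h2
  · simp

lemma hita_U_bd (e : Dir 1) (n : ℕ) (f : ℕ → Dir 1) : 0 ≤ hitaU e n f ∧ hitaU e n f ≤ 1 := by
  unfold hitaU
  split_ifs <;> norm_num

lemma hita_point (e : Dir 1) {r : ℝ} (hr0 : 0 < r) (n : ℕ) (f : ℕ → Dir 1) :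
    (hitaU e n f * r ^ (-hitaS e n f)) * r ^ (-hitaX e (f n)) =
      hitaU e (n + 1) f * r ^ (-hitaS e (n + 1) f) + r⁻¹ * (hitaU e n f - hitaU e (n + 1) f) := by
  have h0 : r ^ (-hitaS e n f) * r ^ (-hitaX e (f n)) = r ^ (-hitaS e (n + 1) f) := by
    rw [← zpow_add₀ hr0.ne', hita_S_succ]
    congr 1
    ring
  rw [mul_assoc, h0]
  by_cases h1 : f ∈ NoHitS e n
  · by_cases h2 : f ∈ NoHitS e (n + 1)
    · simp [hitaU, h1, h2]
    · have h3 : hitaS e (n + 1) f = 1 := by
        by_contra h4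
        apply h2
        rw [hita_mem] at h1 ⊢
        intro n' hn'
        rcases Nat.lt_or_ge n' (n + 1) with h5 | h5
        · exact h1 n' (by omega)
        · have h6 : n' = n + 1 := by omega
          rw [h6]
          exact h4
      simp [hitaU, h1, h2, h3]
  · have h2 : f ∉ NoHitS e (n + 1) := by
      intro h3
      apply h1
      rw [hita_mem] at h3 ⊢
      exact fun n' hn' => h3 n' (by omega)
    simp [hitaU, h1, h2]

lemma hita_int {n : ℕ} {g : (ℕ → Dir 1) → ℝ} (hg : ∀ f f', (∀ k < n, f k = f' k) → g f = g f')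
    {C : ℝ} (hC : ∀ f, |g f| ≤ C) : Integrable g hitaP :=
  Integrable.of_bound (hita_meas hg).aestronglyMeasurable C
    (Filter.Eventually.of_forall fun f => by rw [Real.norm_eq_abs]; exact hC f)

/-- The first passage bound for the simple random walk. -/
theorem srw_noHit_le (e : Dir 1) (n : ℕ) {r : ℝ} (hr0 : 0 < r) (hr1 : r < 1) :
    (Measure.infinitePi fun _ : ℕ => uniformOn (Set.univ : Set (Dir 1))) (NoHitS e n) ≤
      ENNReal.ofReal (1 - r + (2 * r / (1 + r ^ 2)) ^ n) := by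
  obtain ⟨ρ, hρ⟩ : ∃ ρ : ℝ, ρ = 2 * r / (1 + r ^ 2) := ⟨_, rfl⟩
  have hρ0 : 0 < ρ := by rw [hρ]; positivity
  have hρ1 : ρ ≤ 1 := by
    rw [hρ, div_le_one (by positivity)]
    nlinarith [sq_nonneg (1 - r)]
  have hρm : ρ * ((r + r⁻¹) / 2) = 1 := by
    rw [hρ]
    field_simp
    ring
  have hUi : ∀ n, Integrable (hitaU e n) hitaP := fun n =>
    hita_int (n := n) (fun f f' h => hita_U_congr e h) (C := 1) fun f => by
      rw [abs_of_nonneg (hita_U_bd e n f).1]
      exact (hita_U_bd e n f).2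
  have hFi : ∀ n, Integrable (fun f => hitaU e n f * r ^ (-hitaS e n f)) hitaP := fun n =>
    hita_int (n := n) (fun f f' h => hita_F_congr e r h) (C := 1) fun f => by
      rw [abs_of_nonneg (hita_F_bd e hr0 hr1 n f).1]
      exact (hita_F_bd e hr0 hr1 n f).2.trans (hita_U_bd e n f).2
  obtain ⟨α, hα⟩ : ∃ α : ℕ → ℝ, α = fun n => ∫ f, hitaU e n f * r ^ (-hitaS e n f) ∂hitaP := ⟨_, rfl⟩
  obtain ⟨q, hq⟩ : ∃ q : ℕ → ℝ, q = fun n => ∫ f, hitaU e n f ∂hitaP := ⟨_, rfl⟩
  have hstep : ∀ n, α n * ((r + r⁻¹) / 2) = α (n + 1) + r⁻¹ * (q n - q (n + 1)) := by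
    intro n
    have h1 := hita_indep (n := n) (g := fun f => hitaU e n f * r ^ (-hitaS e n f))
      (fun f f' h => hita_F_congr e r h) (fun e' => r ^ (-hitaX e e'))
    rw [hita_mean] at h1
    have h2 : ∫ f, (hitaU e n f * r ^ (-hitaS e n f)) * r ^ (-hitaX e (f n)) ∂hitaP =
        ∫ f, (hitaU e (n + 1) f * r ^ (-hitaS e (n + 1) f) +
          r⁻¹ * (hitaU e n f - hitaU e (n + 1) f)) ∂hitaP :=
      integral_congr_ae (Filter.Eventually.of_forall fun f => hita_point e hr0 n f)
    have h3 : Integrable (fun f => r⁻¹ * (hitaU e n f - hitaU e (n + 1) f)) hitaP :=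
      ((hUi n).sub (hUi (n + 1))).const_mul _
    rw [h2, integral_add (hFi (n + 1)) h3,
      integral_const_mul, integral_sub (hUi n) (hUi (n + 1))] at h1
    rw [hα, hq]
    exact h1.symm
  have hmono : ∀ n, q (n + 1) ≤ q n := by
    intro n
    rw [hq]
    refine integral_mono (hUi (n + 1)) (hUi n) fun f => ?_
    unfold hitaU
    by_cases h2 : f ∈ NoHitS e (n + 1)
    · have h1 : f ∈ NoHitS e n := by
        rw [hita_mem] at h2 ⊢
        exact fun n' hn' => h2 n' (by omega)
      simp [h1, h2]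
    · simp only [h2, if_false]
      split_ifs <;> norm_num
  have hα0 : α 0 = 1 := by
    rw [hα]
    have h1 : ∀ f : ℕ → Dir 1, hitaU e 0 f * r ^ (-hitaS e 0 f) = 1 := by
      intro f
      have h2 : f ∈ NoHitS e 0 := by
        rw [hita_mem]
        intro n' hn'
        have h3 : n' = 0 := by omega
        subst h3
        simp [hitaS]
      simp [hitaU, h2, hitaS]
    simp only [h1]
    simp
  have hq0 : q 0 = 1 := by
    rw [hq]
    have h1 : ∀ f : ℕ → Dir 1, hitaU e 0 f = 1 := by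
      intro f
      have h2 : f ∈ NoHitS e 0 := by
        rw [hita_mem]
        intro n' hn'
        have h3 : n' = 0 := by omega
        subst h3
        simp [hitaS]
      simp [hitaU, h2]
    simp only [h1]
    simp
  have hαq : α n ≤ 1 := by
    rw [hα]
    have h1 : ∫ f, hitaU e n f * r ^ (-hitaS e n f) ∂hitaP ≤ ∫ _f, (1 : ℝ) ∂hitaP :=
      integral_mono (hFi n) (integrable_const _) fun f =>
        (hita_F_bd e hr0 hr1 n f).2.trans (hita_U_bd e n f).2
    simpa using h1
  have hmain : ∀ n, 1 ≤ ρ ^ n * α n + r⁻¹ * (1 - q n) := by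
    intro n
    induction n with
    | zero => rw [hα0, hq0]; simp
    | succ k ih =>
      have h1 := hstep k
      have h2 : ρ ^ (k + 1) * (α k * ((r + r⁻¹) / 2)) = ρ ^ k * α k := by
        rw [pow_succ]
        calc ρ ^ k * ρ * (α k * ((r + r⁻¹) / 2)) = ρ ^ k * α k * (ρ * ((r + r⁻¹) / 2)) := by ring
          _ = ρ ^ k * α k := by rw [hρm, mul_one]
      rw [h1] at h2
      have h3 : ρ ^ (k + 1) * (r⁻¹ * (q k - q (k + 1))) ≤ 1 * (r⁻¹ * (q k - q (k + 1))) := by
        apply mul_le_mul_of_nonneg_right (pow_le_one₀ hρ0.le hρ1)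
        exact mul_nonneg (inv_nonneg.2 hr0.le) (sub_nonneg.2 (hmono k))
      have h4 : ρ ^ (k + 1) * α (k + 1) = ρ ^ k * α k - ρ ^ (k + 1) * (r⁻¹ * (q k - q (k + 1))) := by
        rw [← h2]
        ring
      rw [h4]
      have h5 : r⁻¹ * (1 - q (k + 1)) = r⁻¹ * (1 - q k) + r⁻¹ * (q k - q (k + 1)) := by ring
      rw [h5]
      linarith
  have hfin : q n ≤ 1 - r + ρ ^ n := by
    have h1 := hmain n
    have hρn : 0 < ρ ^ n := pow_pos hρ0 n
    have h2 : ρ ^ n * α n ≤ ρ ^ n := mul_le_of_le_one_right hρn.le hαq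
    have h3 : 1 ≤ ρ ^ n + r⁻¹ * (1 - q n) := by linarith
    have h4 : r * 1 ≤ r * (ρ ^ n + r⁻¹ * (1 - q n)) := mul_le_mul_of_nonneg_left h3 hr0.le
    have h5 : r * (ρ ^ n + r⁻¹ * (1 - q n)) = r * ρ ^ n + (1 - q n) := by
      rw [mul_add, ← mul_assoc, mul_inv_cancel₀ hr0.ne', one_mul]
    rw [h5] at h4
    have h6 : r * ρ ^ n ≤ ρ ^ n := mul_le_of_le_one_left hρn.le hr1.le
    linarith
  have hqm : q n = (hitaP (NoHitS e n)).toReal := by
    rw [hq]
    have h1 : (fun f => hitaU e n f) = (NoHitS e n).indicator (fun _ => (1 : ℝ)) := by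
      ext f
      unfold hitaU
      by_cases h : f ∈ NoHitS e n
      · rw [if_pos h, Set.indicator_of_mem h]
      · rw [if_neg h, Set.indicator_of_notMem h]
    show ∫ f, hitaU e n f ∂hitaP = _
    rw [h1, integral_indicator (measurableSet_noHitS e n)]
    simp [Measure.real]
  rw [← hρ]
  show hitaP (NoHitS e n) ≤ _
  rw [← ENNReal.ofReal_toReal (measure_ne_top hitaP (NoHitS e n)), ← hqm]
  exact ENNReal.ofReal_le_ofReal hfin

end Pool.Agent.Helper96.Frog
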