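import Pool.Agent.Helper96.FG.HITA
import Pool.Agent.Helper96.FrogGF

/-! Sheet FG, row HITB (helper46): the first passage bound for the lazy walk. -/

open MeasureTheory ProbabilityTheory Set Filter
open scoped ENNReal Topology

namespace Pool.Agent.Helper96.Frog

lemma measurableSet_noHit {d : ℕ} (p : ℝ) (x : Site d) (e : Dir d) (s : ℕ) :
    MeasurableSet (NoHit p x e s) := by
  have h : NoHit p x e s = ⋂ s' : ℕ, ⋂ _ : s' ≤ s,
      (fun π : Particle d => traj p x π s') ⁻¹' {x + vec e}ᶜ := by
    ext π
    simp [NoHit]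
  rw [h]
  exact MeasurableSet.iInter fun s' => MeasurableSet.iInter fun _ =>
    measurable_traj p x s' (measurableSet_singleton _).compl

lemma noHit_anti {d : ℕ} (p : ℝ) (x : Site d) (e : Dir d) {s t : ℕ} (h : s ≤ t) :
    NoHit p x e t ⊆ NoHit p x e s := fun _ hπ s' hs' => hπ s' (hs'.trans h)

open Classical in
/-- the number of advances takes all the values up to its maximum -/
lemma advances_surj {d : ℕ} (p : ℝ) (π : Particle d) (s : ℕ) :
    ∀ n ≤ advances p π s, ∃ s' ≤ s, advances p π s' = n := by
  induction s with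
  | zero =>
    intro n hn
    exact ⟨0, le_rfl, by unfold advances at hn ⊢; simp at hn ⊢; omega⟩
  | succ s ih =>
    intro n hn
    by_cases h : n ≤ advances p π s
    · obtain ⟨s', hs', he⟩ := ih n h
      exact ⟨s', hs'.trans (Nat.le_succ s), he⟩
    · have h1 : advances p π (s + 1) ≤ advances p π s + 1 := by
        unfold advances
        rw [Finset.range_add_one, Finset.filter_insert]
        split_ifs
        · exact Finset.card_insert_le _ _
        · exact Nat.le_succ _
      exact ⟨s + 1, le_rfl, by omega⟩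

/-- The first passage bound for the lazy walk. -/
theorem noHit_le {p : ℝ} (hp0 : 0 ≤ p) (hp1 : p ≤ 1) (x : Site 1) (e : Dir 1) (s : ℕ) {r : ℝ}
    (hr0 : 0 < r) (hr1 : r < 1) :
    particleLaw 1 (NoHit p x e s) ≤
      ENNReal.ofReal (1 - r + (1 - p + p * (2 * r / (1 + r ^ 2))) ^ s) := by
  classical
  have := isProb_dir (d := 1)
  set ρ : ℝ := 2 * r / (1 + r ^ 2) with hρ
  have hρ0 : 0 ≤ ρ := by positivity
  have h1 : ∀ c : ℕ → unitInterval,
      (Measure.infinitePi fun _ : ℕ => uniformOn (Set.univ : Set (Dir 1)))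
        ((fun f => ((f, c) : Particle 1)) ⁻¹' NoHit p x e s) ≤ ENNReal.ofReal (1 - r) +
        ∏ k ∈ Finset.range s, (if (c k : ℝ) ≤ p then ENNReal.ofReal ρ else 1) := by
    intro c
    set n : ℕ := advances p ((fun _ => e, c) : Particle 1) s with hn
    have h2 : (fun f => ((f, c) : Particle 1)) ⁻¹' NoHit p x e s ⊆ NoHitS e n := by
      intro f hf n' hn'
      have hn2 : n' ≤ advances p ((f, c) : Particle 1) s := hn'
      obtain ⟨s', hs', he⟩ := advances_surj p ((f, c) : Particle 1) s n' hn2
      have h3 := hf s' hs'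
      unfold traj at h3
      rw [he] at h3
      intro h4
      exact h3 (by rw [← h4])
    have h5 : ∏ k ∈ Finset.range s, (if (c k : ℝ) ≤ p then ENNReal.ofReal ρ else 1) =
        ENNReal.ofReal ρ ^ n := by
      rw [Finset.prod_ite, Finset.prod_const, Finset.prod_const_one, mul_one, hn]
      unfold advances
      congr
    rw [h5, ← ENNReal.ofReal_pow hρ0, ← ENNReal.ofReal_add (by linarith) (by positivity)]
    exact (measure_mono h2).trans (srw_noHit_le e n hr0 hr1)
  have hm : Measurable fun c : ℕ → unitInterval =>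
      ∏ k ∈ Finset.range s, (if (c k : ℝ) ≤ p then ENNReal.ofReal ρ else 1) := by
    refine Finset.measurable_prod _ fun k _ => Measurable.ite ?_ measurable_const
      measurable_const
    exact measurableSet_le (by fun_prop) measurable_const
  rw [particleLaw, Measure.prod_apply_symm (measurableSet_noHit p x e s)]
  refine (lintegral_mono h1).trans ?_
  rw [lintegral_add_right _ hm, lintegral_const, measure_univ, mul_one,
    lintegral_coins hp0 hp1, mul_one]
  have h6 : ENNReal.ofReal p * ENNReal.ofReal ρ + ENNReal.ofReal (1 - p) =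
      ENNReal.ofReal (1 - p + p * ρ) := by
    rw [← ENNReal.ofReal_mul hp0, ← ENNReal.ofReal_add (by positivity) (by linarith), add_comm]
  have h7 : 0 ≤ 1 - p + p * ρ := by
    have : 0 ≤ p * ρ := mul_nonneg hp0 hρ0
    linarith
  rw [h6, ← ENNReal.ofReal_pow h7, ← ENNReal.ofReal_add (by linarith) (by positivity)]

end Pool.Agent.Helper96.Frog
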