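import Pool.Agent.Helper96.FG.HIT

open MeasureTheory ProbabilityTheory Set Filter
open scoped ENNReal Topology

namespace Pool.Agent.Helper96.Frog

namespace SP

/-- The direction to the right. -/
def eR : Dir 1 := (0, true)

/-- The site `j`. -/
def site (j : ℕ) : Site 1 := fun _ => (j : ℤ)

lemma site_succ (j : ℕ) : site (j + 1) = site j + vec eR := by
  funext i
  have hi : i = 0 := Subsingleton.elim _ _
  subst hi
  simp [site, vec, eR]

lemma site_zero : site 0 = 0 := by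
  funext i
  simp [site]

/-- No particle of the site `j` visits the site `j + 1` within `s` steps. -/
def G (j s : ℕ) : Set (Config 1) :=
  {ω | ∀ i < (ω (site j)).1, (ω (site j)).2 i ∈ NoHit 1 (site j) eR s}

lemma measurableSet_G (j s : ℕ) : MeasurableSet (G j s) := by
  have h1 : MeasurableSet {b : Block 1 | ∀ i < b.1, b.2 i ∈ NoHit 1 (site j) eR s} :=
    measurableSet_blockForall (measurableSet_noHit 1 (site j) eR s)
  have h2 : Measurable fun ω : Config 1 => ω (site j) := measurable_pi_apply (site j)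
  exact h2 h1

lemma traj_zero (p : ℝ) (x : Site 1) (π : Particle 1) : traj p x π 0 = x := by
  unfold traj advances
  simp

/-- One step of the discovery. -/
lemma disc_step {ω : Config 1} {j t s : ℕ} (h : oneType 1 ω t (site j) = some t)
    (hs : ω ∉ G j s) : ∃ t', t' ≤ t + s ∧ oneType 1 ω t' (site (j + 1)) = some t' := by
  simp only [G, mem_ofPred_eq, not_forall] at hs
  obtain ⟨i, hi, hn⟩ := hs
  simp only [NoHit, mem_ofPred_eq, not_forall, not_not] at hn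
  obtain ⟨s', hs', hn⟩ := hn
  rw [← site_succ] at hn
  cases s' with
  | zero =>
    rw [traj_zero, site_succ] at hn
    exact absurd (left_eq_add.1 hn) (vec_ne_zero eR)
  | succ r =>
    by_cases hex : ∃ t'', oneType 1 ω (t + r) (site (j + 1)) = some t''
    · obtain ⟨t'', ht''⟩ := hex
      have h1 := (oneType_bound (0 : Site 1 →+ ℤ) (by simp) _ _ _ ht'').1
      exact ⟨t'', by omega, oneType_time ht''⟩
    · have hnone : oneType 1 ω (t + r) (site (j + 1)) = none := by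
        rw [Option.eq_none_iff_forall_not_mem]
        intro s hs
        exact hex ⟨s, hs⟩
      refine ⟨t + r + 1, by omega, ?_⟩
      simp only [oneType, hnone]
      rw [if_pos]
      refine ⟨site j, t, i, oneType_mono_le (by omega) h, hi, ?_⟩
      rw [show t + r + 1 - t = r + 1 by omega]
      exact hn

/-- Discovery of the site `m`. -/
lemma disc {ω : Config 1} (k : ℕ → ℕ) (m : ℕ) (hk : ∀ j < m, ω ∉ G j (k j + 1)) :
    ∃ t, t ≤ ∑ j ∈ Finset.range m, (k j + 1) ∧ oneType 1 ω t (site m) = some t := by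
  induction m with
  | zero => exact ⟨0, by simp, by simp [oneType, site_zero]⟩
  | succ m ih =>
    obtain ⟨t, ht, h⟩ := ih fun j hj => hk j (by omega)
    obtain ⟨t', ht', h'⟩ := disc_step h (hk m (by omega))
    refine ⟨t', ?_, h'⟩
    rw [Finset.sum_range_succ]
    omega

/-- The number of the time steps with delay at the site `j`. -/
noncomputable def cnt (j : ℕ) (ω : Config 1) : ℝ≥0∞ :=
  ∑' s, (G j (s + 1)).indicator (fun _ => (1 : ℝ≥0∞)) ω

lemma measurable_cnt (j : ℕ) : Measurable (cnt j) := by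
  unfold cnt
  exact Measurable.tsum fun s => measurable_const.indicator (measurableSet_G j (s + 1))

lemma exists_k {ω : Config 1} {j : ℕ} (h : cnt j ω ≠ ∞) :
    ∃ k : ℕ, ω ∉ G j (k + 1) ∧ (k : ℝ≥0∞) ≤ cnt j ω := by
  classical
  have hex : ∃ s, ω ∉ G j (s + 1) := by
    by_contra hall
    push Not at hall
    refine h ?_
    unfold cnt
    have : (fun s => (G j (s + 1)).indicator (fun _ => (1 : ℝ≥0∞)) ω) = fun _ : ℕ => (1 : ℝ≥0∞) :=
      funext fun s => indicator_of_mem (hall s) _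
    rw [this]
    exact ENNReal.tsum_const_eq_top_of_ne_zero one_ne_zero
  refine ⟨Nat.find hex, Nat.find_spec hex, ?_⟩
  unfold cnt
  refine le_trans (le_of_eq ?_) (ENNReal.sum_le_tsum (Finset.range (Nat.find hex)))
  have : ∀ s ∈ Finset.range (Nat.find hex),
      (G j (s + 1)).indicator (fun _ => (1 : ℝ≥0∞)) ω = 1 := by
    intro s hs
    have := Nat.find_min hex (Finset.mem_range.1 hs)
    rw [not_not] at this
    exact indicator_of_mem this _
  rw [Finset.sum_congr rfl this]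
  simp

/-- Few delays: the site `m` is discovered early. -/
lemma disc_of_cnt {ω : Config 1} {D m : ℕ} (hD : 1 ≤ D)
    (h : ∑ j ∈ Finset.range m, cnt j ω < ENNReal.ofReal (m / (4 * D))) :
    ∃ x ∈ discovered 1 ω (m + m / (4 * D)),
      (1 - 1 / (4 * D)) * ((m + m / (4 * D) : ℕ) : ℝ) ≤ x 0 := by
  have hfin : ∀ j ∈ Finset.range m, cnt j ω ≠ ∞ := by
    intro j hj
    refine ne_top_of_le_ne_top (h.trans ENNReal.ofReal_lt_top).ne ?_
    exact Finset.single_le_sum (f := fun j => cnt j ω) (fun _ _ => zero_le) hj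
  have hex : ∀ j, ∃ k : ℕ, j ∈ Finset.range m → ω ∉ G j (k + 1) ∧ (k : ℝ≥0∞) ≤ cnt j ω := by
    intro j
    by_cases hj : j ∈ Finset.range m
    · obtain ⟨k, hk⟩ := exists_k (hfin j hj)
      exact ⟨k, fun _ => hk⟩
    · exact ⟨0, fun h => absurd h hj⟩
  choose k hk using hex
  obtain ⟨t, ht, hd⟩ := disc k m fun j hj => (hk j (Finset.mem_range.2 hj)).1
  have h1 : ((∑ j ∈ Finset.range m, k j : ℕ) : ℝ≥0∞) < ENNReal.ofReal (m / (4 * D)) := by
    refine lt_of_le_of_lt ?_ h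
    push_cast
    exact Finset.sum_le_sum fun j hj => (hk j hj).2
  rw [← ENNReal.ofReal_natCast, ENNReal.ofReal_lt_ofReal_iff_of_nonneg (by positivity)] at h1
  have hDr : (1 : ℝ) ≤ D := by exact_mod_cast hD
  have h2 : ∑ j ∈ Finset.range m, k j ≤ m / (4 * D) := by
    rw [Nat.le_div_iff_mul_le (by omega)]
    rw [lt_div_iff₀ (by positivity)] at h1
    have h3 : (((∑ j ∈ Finset.range m, k j) * (4 * D) : ℕ) : ℝ) < m := by
      push_cast at h1 ⊢
      exact h1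
    exact_mod_cast h3.le
  have h3 : t ≤ m + m / (4 * D) := by
    rw [Finset.sum_add_distrib] at ht
    simp only [Finset.sum_const, Finset.card_range, smul_eq_mul, mul_one] at ht
    omega
  refine ⟨site m, ?_, ?_⟩
  · show oneType 1 ω (m + m / (4 * D)) (site m) ≠ none
    rw [oneType_mono_le h3 hd]
    simp
  · have h4 : ((m / (4 * D) : ℕ) : ℝ) ≤ (m : ℝ) / (4 * D : ℕ) := Nat.cast_div_le
    push_cast at h4 ⊢
    have h5 : (site m 0 : ℝ) = m := by simp [site]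
    rw [h5]
    have h6 : 0 ≤ 1 - 1 / (4 * (D : ℝ)) := by
      rw [sub_nonneg, div_le_one (by positivity)]
      linarith
    have h7 : (1 - 1 / (4 * (D : ℝ))) * ((m : ℝ) + (m / (4 * D) : ℕ)) ≤
        (1 - 1 / (4 * (D : ℝ))) * ((m : ℝ) + m / (4 * D)) :=
      mul_le_mul_of_nonneg_left (by linarith) h6
    refine h7.trans ?_
    have h8 : (1 - 1 / (4 * (D : ℝ))) * ((m : ℝ) + m / (4 * D)) =
        m - m * (1 / (4 * (D : ℝ))) ^ 2 := by ring
    rw [h8]
    have : (0 : ℝ) ≤ m * (1 / (4 * (D : ℝ))) ^ 2 := by positivity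
    linarith

lemma law_G_le {N : ℕ} (hN : 12 ≤ N) (j s : ℕ) : law 1 (PMF.pure N) (G j (s + 1)) ≤
    ENNReal.ofReal (2 ^ 16 * (1 / 2) ^ (N - 12) * (1 / ((s + 1 : ℕ) : ℝ) ^ 2)) := by
  have h1 := law_noHit N 1 (site j) eR (s + 1)
  have h2 : law 1 (PMF.pure N) (G j (s + 1)) = (particleLaw 1 (NoHit 1 (site j) eR (s + 1))) ^ N :=
    h1
  rw [h2]
  have h3 := noHit_pow one_pos le_rfl (site j) eR (show 1 ≤ s + 1 by omega)
  have h4 := noHit_one_le (site j) eR (show 1 ≤ s + 1 by omega)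
  set q := particleLaw 1 (NoHit 1 (site j) eR (s + 1))
  have h5 : q ^ N = q ^ 12 * q ^ (N - 12) := by
    rw [← pow_add]
    congr 1
    omega
  have hs : (1 : ℝ) ≤ ((s + 1 : ℕ) : ℝ) := by
    push_cast
    have : (0 : ℝ) ≤ s := Nat.cast_nonneg _
    linarith
  rw [h5]
  calc q ^ 12 * q ^ (N - 12) ≤ ENNReal.ofReal (2 ^ 16 / (1 * ((s + 1 : ℕ) : ℝ)) ^ 4) *
        ENNReal.ofReal (1 / 2) ^ (N - 12) := by gcongr
    _ = ENNReal.ofReal (2 ^ 16 / (1 * ((s + 1 : ℕ) : ℝ)) ^ 4 * (1 / 2) ^ (N - 12)) := by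
        rw [← ENNReal.ofReal_pow (by norm_num), ← ENNReal.ofReal_mul (by positivity)]
    _ ≤ _ := by
        refine ENNReal.ofReal_le_ofReal ?_
        rw [one_mul]
        have h6 : 1 / ((s + 1 : ℕ) : ℝ) ^ 4 ≤ 1 / ((s + 1 : ℕ) : ℝ) ^ 2 :=
          one_div_le_one_div_of_le (by positivity) (pow_le_pow_right₀ hs (by norm_num))
        have h7 : 2 ^ 16 / ((s + 1 : ℕ) : ℝ) ^ 4 * (1 / 2) ^ (N - 12) =
            2 ^ 16 * (1 / 2) ^ (N - 12) * (1 / ((s + 1 : ℕ) : ℝ) ^ 4) := by ring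
        rw [h7]
        exact mul_le_mul_of_nonneg_left h6 (by positivity)

lemma tsum_sq_le : ∑' s : ℕ, ENNReal.ofReal (1 / ((s + 1 : ℕ) : ℝ) ^ 2) ≤ ENNReal.ofReal 2 := by
  have h1 : ∑' s : ℕ, ENNReal.ofReal (1 / ((s + 1 : ℕ) : ℝ) ^ 2) ≤
      ∑' s : ℕ, ENNReal.ofReal (1 / (s : ℝ) ^ 2) :=
    ENNReal.tsum_comp_le_tsum_of_injective (f := fun s : ℕ => s + 1) (add_left_injective 1)
      fun s => ENNReal.ofReal (1 / (s : ℝ) ^ 2)
  refine h1.trans ?_
  rw [← ENNReal.ofReal_tsum_of_nonneg (fun n => by positivity) hasSum_zeta_two.summable,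
    hasSum_zeta_two.tsum_eq]
  refine ENNReal.ofReal_le_ofReal ?_
  have := Real.pi_lt_d2
  have := Real.pi_pos
  nlinarith

lemma lintegral_cnt_le {N : ℕ} (hN : 12 ≤ N) (j : ℕ) : ∫⁻ ω, cnt j ω ∂(law 1 (PMF.pure N)) ≤
    ENNReal.ofReal (2 ^ 17 * (1 / 2) ^ (N - 12)) := by
  unfold cnt
  rw [lintegral_tsum fun s => (measurable_const.indicator (measurableSet_G j (s + 1))).aemeasurable]
  have h1 : ∀ s, ∫⁻ ω, (G j (s + 1)).indicator (fun _ => (1 : ℝ≥0∞)) ω ∂(law 1 (PMF.pure N)) ≤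
      ENNReal.ofReal (2 ^ 16 * (1 / 2) ^ (N - 12)) *
        ENNReal.ofReal (1 / ((s + 1 : ℕ) : ℝ) ^ 2) := by
    intro s
    rw [lintegral_indicator_const (measurableSet_G j (s + 1)), one_mul,
      ← ENNReal.ofReal_mul (by positivity)]
    exact law_G_le hN j s
  refine (ENNReal.tsum_le_tsum h1).trans ?_
  rw [ENNReal.tsum_mul_left]
  refine (mul_le_mul_right tsum_sq_le _).trans ?_
  rw [← ENNReal.ofReal_mul (by positivity)]
  refine ENNReal.ofReal_le_ofReal (le_of_eq ?_)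
  ring

lemma num_le {D : ℕ} (hm : 2 ^ 14 * (8 * 1 + 1024) ≤ 12 * D ^ 2)
    (hq : 6 * (1 - 1 / (2 * ((1 : ℕ) : ℝ))) ^ (12 * D ^ 2) ≤ 6⁻¹ ^ (4 * D)) :
    (2 : ℝ) ^ 17 * (1 / 2) ^ (12 * D ^ 2 - 12) ≤ 1 / (8 * D) := by
  have hD : 1000 ≤ D := by
    by_contra h
    push Not at h
    have : D ^ 2 ≤ 999 ^ 2 := Nat.pow_le_pow_left (by omega) 2
    omega
  have hN : 12 ≤ 12 * D ^ 2 := by nlinarith
  have h1 : (1 / 2 : ℝ) ^ (12 * D ^ 2) ≤ 6⁻¹ ^ (4 * D) := by
    have e : (1 - 1 / (2 * ((1 : ℕ) : ℝ))) = 1 / 2 := by norm_num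
    rw [e] at hq
    have : (0 : ℝ) ≤ (1 / 2) ^ (12 * D ^ 2) := by positivity
    linarith
  have h2 : (1 / 2 : ℝ) ^ (12 * D ^ 2 - 12) = 2 ^ 12 * (1 / 2) ^ (12 * D ^ 2) := by
    have : 12 * D ^ 2 = (12 * D ^ 2 - 12) + 12 := by omega
    conv_rhs => rw [this, pow_add]
    ring
  have h3 : 2 ^ 32 * D ≤ 6 ^ (4 * D) := by
    have h4 : D ≤ 2 ^ D := Nat.lt_two_pow_self.le
    have h5 : 2 ^ 32 ≤ 2 ^ D := Nat.pow_le_pow_right (by norm_num) (by omega)
    calc 2 ^ 32 * D ≤ 2 ^ D * 2 ^ D := Nat.mul_le_mul h5 h4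
      _ = 4 ^ D := by
          rw [← mul_pow]
          norm_num
      _ ≤ (6 ^ 4) ^ D := Nat.pow_le_pow_left (by norm_num) D
      _ = 6 ^ (4 * D) := by rw [pow_mul]
  have h4 : (2 : ℝ) ^ 32 * D ≤ 6 ^ (4 * D) := by exact_mod_cast h3
  have hDr : (0 : ℝ) < D := by
    have : 0 < D := by omega
    exact_mod_cast this
  rw [h2, le_div_iff₀ (by positivity)]
  calc (2 : ℝ) ^ 17 * (2 ^ 12 * (1 / 2) ^ (12 * D ^ 2)) * (8 * D)
      = (2 ^ 32 * D) * (1 / 2) ^ (12 * D ^ 2) := by ring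
    _ ≤ 6 ^ (4 * D) * 6⁻¹ ^ (4 * D) := mul_le_mul h4 h1 (by positivity) (by positivity)
    _ = 1 := by
        rw [← mul_pow]
        norm_num

end SP

/-- The lower bound for the speed on the line. -/
theorem speed_lower_one {D : ℕ} (hD : 1 ≤ D) (hm : 2 ^ 14 * (8 * 1 + 1024) ≤ 12 * D ^ 2)
    (hq : 6 * (1 - 1 / (2 * ((1 : ℕ) : ℝ))) ^ (12 * D ^ 2) ≤ 6⁻¹ ^ (4 * D)) :
    0 < law 1 (PMF.pure (12 * D ^ 2)) {ω | ∃ᶠ n : ℕ in atTop, ∃ x ∈ discovered 1 ω n,
      (1 - 1 / (4 * D)) * (n : ℝ) ≤ x 0} := by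
  have := isProb_law (d := 1) (PMF.pure (12 * D ^ 2))
  have hDr : (1 : ℝ) ≤ D := by exact_mod_cast hD
  have hN : 12 ≤ 12 * D ^ 2 := by nlinarith
  set A : ℕ → Set (Config 1) := fun m =>
    {ω | ENNReal.ofReal (m / (4 * D)) ≤ ∑ j ∈ Finset.range m, SP.cnt j ω} with hA
  have hAb : ∀ m, 1 ≤ m → law 1 (PMF.pure (12 * D ^ 2)) (A m) ≤ ENNReal.ofReal (1 / 2) := by
    intro m hm1
    have hmr : (1 : ℝ) ≤ m := by exact_mod_cast hm1
    have hmeas : Measurable fun ω => ∑ j ∈ Finset.range m, SP.cnt j ω :=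
      Finset.measurable_sum _ fun j _ => SP.measurable_cnt j
    have h1 := mul_meas_ge_le_lintegral (μ := law 1 (PMF.pure (12 * D ^ 2))) hmeas
      (ENNReal.ofReal (m / (4 * D)))
    have h2 : ∫⁻ ω, ∑ j ∈ Finset.range m, SP.cnt j ω ∂(law 1 (PMF.pure (12 * D ^ 2))) ≤
        ENNReal.ofReal (m / (4 * D)) * ENNReal.ofReal (1 / 2) := by
      rw [lintegral_finsetSum _ fun j _ => SP.measurable_cnt j]
      have h3 : ∀ j ∈ Finset.range m, ∫⁻ ω, SP.cnt j ω ∂(law 1 (PMF.pure (12 * D ^ 2))) ≤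
          ENNReal.ofReal (1 / (8 * D)) := fun j _ =>
        (SP.lintegral_cnt_le hN j).trans (ENNReal.ofReal_le_ofReal (SP.num_le hm hq))
      refine (Finset.sum_le_card_nsmul _ _ _ h3).trans (le_of_eq ?_)
      rw [Finset.card_range, nsmul_eq_mul, ← ENNReal.ofReal_natCast,
        ← ENNReal.ofReal_mul (by positivity), ← ENNReal.ofReal_mul (by positivity)]
      congr 1
      field_simp
      norm_num
    have h4 : ENNReal.ofReal (m / (4 * D)) ≠ 0 := by
      rw [Ne, ENNReal.ofReal_eq_zero, not_le]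
      positivity
    exact (ENNReal.mul_le_mul_iff_right h4 ENNReal.ofReal_ne_top).1 (h1.trans h2)
  have hev : law 1 (PMF.pure (12 * D ^ 2)) {ω | ∀ᶠ n in atTop, ω ∈ A n} ≤
      ENNReal.ofReal (1 / 2) := by
    have h1 : {ω | ∀ᶠ n in atTop, ω ∈ A n} = ⋃ N, {ω | ∀ n, N ≤ n → ω ∈ A n} := by
      ext ω
      simp [eventually_atTop]
    have hmono : Monotone fun N : ℕ => {ω : Config 1 | ∀ n, N ≤ n → ω ∈ A n} := by
      intro N M hNM ω hω n hn
      exact hω n (hNM.trans hn)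
    rw [h1, hmono.measure_iUnion]
    refine iSup_le fun N => ?_
    have h2 : {ω : Config 1 | ∀ n, N ≤ n → ω ∈ A n} ⊆ A (max N 1) := fun ω hω =>
      hω (max N 1) (le_max_left _ _)
    exact (measure_mono h2).trans (hAb _ (le_max_right _ _))
  have hsub : (Set.univ : Set (Config 1)) ⊆ {ω | ∀ᶠ n in atTop, ω ∈ A n} ∪
      {ω | ∃ᶠ n : ℕ in atTop, ∃ x ∈ discovered 1 ω n, (1 - 1 / (4 * D)) * (n : ℝ) ≤ x 0} := by
    intro ω _
    by_cases hω : ∀ᶠ n in atTop, ω ∈ A n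
    · exact Or.inl hω
    · refine Or.inr ?_
      rw [not_eventually] at hω
      have hT : Tendsto (fun m : ℕ => m + m / (4 * D)) atTop atTop :=
        tendsto_atTop_mono (fun m => Nat.le_add_right m _) tendsto_id
      have h1 : ∃ᶠ m : ℕ in atTop, ∃ x ∈ discovered 1 ω (m + m / (4 * D)),
          (1 - 1 / (4 * D)) * ((m + m / (4 * D) : ℕ) : ℝ) ≤ x 0 := by
        refine hω.mono fun m hm => ?_
        simp only [hA, mem_ofPred_eq, not_le] at hm
        exact SP.disc_of_cnt hD hm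
      exact hT.frequently h1
  by_contra hcon
  have hzero := le_antisymm (not_lt.1 hcon) zero_le
  have h1 : (1 : ℝ≥0∞) ≤ ENNReal.ofReal (1 / 2) := by
    calc (1 : ℝ≥0∞) = law 1 (PMF.pure (12 * D ^ 2)) Set.univ := measure_univ.symm
      _ ≤ _ := measure_mono hsub
      _ ≤ _ := measure_union_le _ _
      _ ≤ ENNReal.ofReal (1 / 2) + 0 := add_le_add hev hzero.le
      _ = ENNReal.ofReal (1 / 2) := add_zero _
  rw [← ENNReal.ofReal_one, ENNReal.ofReal_le_ofReal_iff (by norm_num)] at h1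
  norm_num at h1

end Pool.Agent.Helper96.Frog
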