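import Pool.Agent.Helper96.FG.DET
import Pool.Agent.Helper96.FG.FAIL
import Pool.Agent.Helper96.FG.CRS
import Pool.Agent.Helper96.FG.SP1

open MeasureTheory ProbabilityTheory Set Filter
open scoped ENNReal Topology

namespace Pool.Agent.Helper96.Frog

lemma exists_J {p : ℝ} (hp0 : 0 < p) : ∃ J0 : ℕ, 1 ≤ J0 ∧ ∀ J : ℕ, J0 ≤ J →
    (2 : ℝ) ^ 16 / (p ^ 4 * J) ≤ 1 / 8 := by
  obtain ⟨n, hn⟩ := exists_nat_ge ((2 : ℝ) ^ 19 / p ^ 4)
  refine ⟨n + 1, by omega, fun J hJ => ?_⟩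
  have hJ' : (n : ℝ) + 1 ≤ J := by exact_mod_cast hJ
  have hp4 : 0 < p ^ 4 := by positivity
  have hJ0 : (0 : ℝ) < J := by
    have : (0 : ℝ) ≤ n := Nat.cast_nonneg n
    linarith
  rw [div_le_iff₀ hp4] at hn
  rw [div_le_div_iff₀ (by positivity) (by norm_num)]
  have h1 : (n : ℝ) * p ^ 4 ≤ p ^ 4 * J := by nlinarith
  linarith

/-- Coexistence on the line, for all parameters. -/
theorem coexistence_one {N : ℕ} (hN : 12 ≤ N) {p : Fin 2 → ℝ} (hp0 : ∀ j, 0 < p j)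
    (hp1 : ∀ j, p j ≤ 1) : ∃ z : Site 1, z ≠ 0 ∧ ∀ tie : Config 1 → ℕ → Site 1 → Fin 2,
      0 < law 1 (PMF.pure N) {ω | ActivatesInfinitely p (tie ω) z 0 ω ∧
        ActivatesInfinitely p (tie ω) z 1 ω} := by
  have := isProb_law (d := 1) (PMF.pure N)
  obtain ⟨J0, hJ0, hJ0'⟩ := exists_J (hp0 0)
  obtain ⟨J1, hJ1, hJ1'⟩ := exists_J (hp0 1)
  set J : ℕ := max J0 J1 with hJ
  have hJpos : 1 ≤ J := hJ0.trans (le_max_left _ _)
  have hfail : ∀ (Z : ℕ) (j : Fin 2), law 1 (PMF.pure N) (FrontFail (p j) (bq J) Z j) ≤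
      ENNReal.ofReal (1 / 8) := by
    intro Z j
    refine (law_frontFail (hp0 j) (hp1 j) hN hJpos Z j).trans (ENNReal.ofReal_le_ofReal ?_)
    rcases fin2_cases j with rfl | rfl
    · exact hJ0' J (le_max_left _ _)
    · exact hJ1' J (le_max_right _ _)
  have h8 : (0 : ℝ≥0∞) < ENNReal.ofReal (1 / 8) := by
    rw [ENNReal.ofReal_pos]
    norm_num
  obtain ⟨Z, hZ1, hZ2, hZ3⟩ := ((eventually_ge_atTop 1).and
    ((law_cross_small (hp0 0).le (hp1 0) N J h8).and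
      (law_cross_small (hp0 1).le (hp1 1) N J h8))).exists
  refine ⟨zz Z, ?_, fun tie => ?_⟩
  · intro h
    have h1 := congrFun h 0
    simp only [zz, Pi.zero_apply] at h1
    omega
  have hb0 := hfail Z 0
  have hb1 := hfail Z 1
  have hc1 := hZ2 1 0 (by decide)
  have hc0 := hZ3 0 1 (by decide)
  have hsub : (Set.univ : Set (Config 1)) ⊆
      ((FrontFail (p 0) (bq J) Z 0 ∪ FrontFail (p 1) (bq J) Z 1) ∪
        (Cross (p 0) (bq J) Z 1 0 ∪ Cross (p 1) (bq J) Z 0 1)) ∪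
      {ω | ActivatesInfinitely p (tie ω) (zz Z) 0 ω ∧
        ActivatesInfinitely p (tie ω) (zz Z) 1 ω} := by
    intro ω _
    by_cases h0 : ω ∈ FrontFail (p 0) (bq J) Z 0
    · exact Or.inl (Or.inl (Or.inl h0))
    by_cases h1 : ω ∈ FrontFail (p 1) (bq J) Z 1
    · exact Or.inl (Or.inl (Or.inr h1))
    by_cases h2 : ω ∈ Cross (p 0) (bq J) Z 1 0
    · exact Or.inl (Or.inr (Or.inl h2))
    by_cases h3 : ω ∈ Cross (p 1) (bq J) Z 0 1
    · exact Or.inl (Or.inr (Or.inr h3))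
    exact Or.inr ⟨activates_of_front hZ1 (by decide) h0 h3,
      activates_of_front hZ1 (by decide) h1 h2⟩
  by_contra hcon
  have hzero : law 1 (PMF.pure N) {ω | ActivatesInfinitely p (tie ω) (zz Z) 0 ω ∧
      ActivatesInfinitely p (tie ω) (zz Z) 1 ω} = 0 := le_antisymm (not_lt.1 hcon) zero_le
  have h1 : (1 : ℝ≥0∞) ≤ ENNReal.ofReal (1 / 8) + ENNReal.ofReal (1 / 8) +
      (ENNReal.ofReal (1 / 8) + ENNReal.ofReal (1 / 8)) := by
    calc (1 : ℝ≥0∞) = law 1 (PMF.pure N) Set.univ := measure_univ.symm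
      _ ≤ law 1 (PMF.pure N) (((FrontFail (p 0) (bq J) Z 0 ∪ FrontFail (p 1) (bq J) Z 1) ∪
        (Cross (p 0) (bq J) Z 1 0 ∪ Cross (p 1) (bq J) Z 0 1)) ∪ _) := measure_mono hsub
      _ ≤ _ + _ := measure_union_le _ _
      _ ≤ (_ + _) + 0 := add_le_add (measure_union_le _ _) hzero.le
      _ ≤ (_ + _) + (_ + _) := by
          rw [add_zero]
          exact add_le_add (measure_union_le _ _) (measure_union_le _ _)
      _ ≤ _ := add_le_add (add_le_add hb0 hb1) (add_le_add hc1 hc0)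
  rw [← ENNReal.ofReal_add (by norm_num) (by norm_num),
    ← ENNReal.ofReal_add (by norm_num) (by norm_num), ← ENNReal.ofReal_one,
    ENNReal.ofReal_le_ofReal_iff (by norm_num)] at h1
  norm_num at h1

end Pool.Agent.Helper96.Frog
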