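import Pool.Agent.Helper96.FrogShape
import Pool.Agent.Helper96.FG.ONE

open MeasureTheory ProbabilityTheory Filter

namespace Pool.Agent.Helper96.Frog

/-- The main theorem in dimension at least two. -/
theorem main_two (d : ℕ) (hd : 2 ≤ d) :
    ∃ (ν : PMF ℕ) (p : Fin 2 → ℝ), ν 0 < 1 ∧ (∀ j, 0 < p j ∧ p j ≤ 1) ∧
      (∃ (i : Fin d) (c₁ c₂ : ℝ), c₂ < c₁ ∧
        0 < law d ν {ω | ∃ᶠ n : ℕ in atTop, ∃ x ∈ discovered (p 0) ω n, c₁ * (n : ℝ) ≤ x i} ∧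
        ∀ᵐ ω ∂(law d ν), ∃ C : ℝ, ∀ n, ∀ x ∈ discovered (p 1) ω n, (x i : ℝ) ≤ c₂ * n + C) ∧
      (∀ A₁ A₂ : Set (Fin d → ℝ), IsShape ν (p 0) A₁ → IsShape ν (p 1) A₂ → A₁ ≠ A₂) ∧
      ∃ z : Site d, z ≠ 0 ∧ ∀ tie : Config d → ℕ → Site d → Fin 2,
        0 < law d ν {ω | ActivatesInfinitely p (tie ω) z 0 ω ∧
          ActivatesInfinitely p (tie ω) z 1 ω} := by
  have : NeZero d := ⟨by omega⟩
  obtain ⟨D, hD, hdD, hm, hs, hq⟩ := exists_D d (by omega)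
  set k : ℕ := D ^ 2 with hk
  have hk1 : 1 ≤ k := Nat.one_le_pow _ _ hD
  have hk' : (1 : ℝ) ≤ k := by exact_mod_cast hk1
  have hd' : (2 : ℝ) ≤ d := by exact_mod_cast hd
  have hdk' : (d : ℝ) ≤ k := by exact_mod_cast hdD
  have hDr : (1 : ℝ) ≤ D := by exact_mod_cast hD
  have hp1 : (d / k : ℝ) ≤ 1 := by
    rw [div_le_one (by positivity)]
    exact hdk'
  have hp0 : 0 < (d / k : ℝ) := by positivity
  let i0 : Fin d := ⟨0, by omega⟩
  let i1 : Fin d := ⟨1, by omega⟩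
  have h01 : i0 ≠ i1 := by
    intro h
    have := congrArg Fin.val h
    simp [i0, i1] at this
  set p : Fin 2 → ℝ := ![1, d / k] with hp
  have hpj : ∀ j, 0 < p j ∧ p j ≤ 1 := by
    intro j
    rcases fin2_cases j with rfl | rfl
    · simp [hp]
    · simpa [hp] using ⟨hp0, hp1⟩
  have h1 := speed_lower h01 hD hq
  have h2 := speed_upper i0 hD hdD hm hs
  have hc : (1 - 1 / (2 * (D : ℝ))) < 1 - 1 / (4 * D) := by
    have h3 : 1 / (4 * (D : ℝ)) < 1 / (2 * D) := by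
      rw [div_lt_div_iff₀ (by positivity) (by positivity)]
      nlinarith
    linarith
  refine ⟨PMF.pure (12 * k), p, ?_, hpj, ⟨i0, 1 - 1 / (4 * D), 1 - 1 / (2 * D), hc, h1, h2⟩, ?_,
    vec (i0, true), vec_ne_zero _, ?_⟩
  · rw [PMF.pure_apply, if_neg (by omega)]
    exact zero_lt_one
  · intro A₁ A₂ hA₁ hA₂
    exact shapes_ne (by omega) hc h1 h2 hA₁ hA₂
  · intro tie
    refine coexistence h01 (12 * k) (fun j => (hpj j).1.le) (fun j => (hpj j).2) ?_ tie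
    intro j
    have hθ0 : 0 ≤ 1 - 1 / (2 * (d : ℝ)) := by
      rw [sub_nonneg, div_le_one (by positivity)]
      linarith
    rcases fin2_cases j with rfl | rfl
    · have h3 : (6⁻¹ : ℝ) ^ (4 * D) ≤ 6⁻¹ ^ 4 :=
        pow_le_pow_of_le_one (by norm_num) (by norm_num) (by omega)
      show 27 * (2 * ENNReal.ofReal (1 - 1 / (2 * d)) ^ (12 * k)) ≤ 1
      rw [← ENNReal.ofReal_pow hθ0, ← mul_assoc, show (27 * 2 : ENNReal) = ENNReal.ofReal 54 by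
        norm_num, ← ENNReal.ofReal_mul (by norm_num), ← ENNReal.ofReal_one]
      refine ENNReal.ofReal_le_ofReal ?_
      have h4 : (6 : ℝ) * (1 - 1 / (2 * d)) ^ (12 * k) ≤ 6⁻¹ ^ 4 := hq.trans h3
      have h5 : (6⁻¹ : ℝ) ^ 4 ≤ 1 / 9 := by norm_num
      linarith
    · have hpd : (d / k : ℝ) / (2 * d) = 1 / (2 * k) := by
        field_simp
      show 27 * (2 * ENNReal.ofReal (1 - (d / k : ℝ) / (2 * d)) ^ (12 * k)) ≤ 1
      rw [hpd, ← ENNReal.ofReal_pow (by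
        rw [sub_nonneg, div_le_one (by positivity)]
        linarith), ← mul_assoc, show (27 * 2 : ENNReal) = ENNReal.ofReal 54 by
        norm_num, ← ENNReal.ofReal_mul (by norm_num), ← ENNReal.ofReal_one]
      refine ENNReal.ofReal_le_ofReal ?_
      have h4 := pow_upper hk1
      have h5 : (2⁻¹ : ℝ) ^ 6 = 1 / 64 := by norm_num
      rw [h5] at h4
      linarith

/-- The main theorem in dimension one. -/
theorem main_one :
    ∃ (ν : PMF ℕ) (p : Fin 2 → ℝ), ν 0 < 1 ∧ (∀ j, 0 < p j ∧ p j ≤ 1) ∧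
      (∃ (i : Fin 1) (c₁ c₂ : ℝ), c₂ < c₁ ∧
        0 < law 1 ν {ω | ∃ᶠ n : ℕ in atTop, ∃ x ∈ discovered (p 0) ω n, c₁ * (n : ℝ) ≤ x i} ∧
        ∀ᵐ ω ∂(law 1 ν), ∃ C : ℝ, ∀ n, ∀ x ∈ discovered (p 1) ω n, (x i : ℝ) ≤ c₂ * n + C) ∧
      (∀ A₁ A₂ : Set (Fin 1 → ℝ), IsShape ν (p 0) A₁ → IsShape ν (p 1) A₂ → A₁ ≠ A₂) ∧
      ∃ z : Site 1, z ≠ 0 ∧ ∀ tie : Config 1 → ℕ → Site 1 → Fin 2,
        0 < law 1 ν {ω | ActivatesInfinitely p (tie ω) z 0 ω ∧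
          ActivatesInfinitely p (tie ω) z 1 ω} := by
  obtain ⟨D, hD, hdD, hm, hs, hq⟩ := exists_D 1 le_rfl
  set k : ℕ := D ^ 2 with hk
  have hk1 : 1 ≤ k := Nat.one_le_pow _ _ hD
  have hk' : (1 : ℝ) ≤ k := by exact_mod_cast hk1
  have hDr : (1 : ℝ) ≤ D := by exact_mod_cast hD
  have hp1 : (((1 : ℕ) : ℝ) / k : ℝ) ≤ 1 := by
    rw [div_le_one (by positivity)]
    push_cast
    exact hk'
  have hp0 : 0 < (((1 : ℕ) : ℝ) / k : ℝ) := by positivity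
  set p : Fin 2 → ℝ := ![1, ((1 : ℕ) : ℝ) / k] with hp
  have hpj : ∀ j, 0 < p j ∧ p j ≤ 1 := by
    intro j
    rcases fin2_cases j with rfl | rfl
    · simp [hp]
    · exact ⟨hp0, hp1⟩
  have h1 := speed_lower_one hD hm hq
  have h2 := speed_upper (0 : Fin 1) hD hdD hm hs
  have hc : (1 - 1 / (2 * (D : ℝ))) < 1 - 1 / (4 * D) := by
    have h3 : 1 / (4 * (D : ℝ)) < 1 / (2 * D) := by
      rw [div_lt_div_iff₀ (by positivity) (by positivity)]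
      nlinarith
    linarith
  obtain ⟨z, hz, hz'⟩ := coexistence_one (N := 12 * k) (by omega) (fun j => (hpj j).1)
    (fun j => (hpj j).2)
  refine ⟨PMF.pure (12 * k), p, ?_, hpj, ⟨0, 1 - 1 / (4 * D), 1 - 1 / (2 * D), hc, h1, h2⟩, ?_,
    z, hz, hz'⟩
  · rw [PMF.pure_apply, if_neg (by omega)]
    exact zero_lt_one
  · intro A₁ A₂ hA₁ hA₂
    exact shapes_ne (by omega) hc h1 h2 hA₁ hA₂

end Pool.Agent.Helper96.Frog
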